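import Pool.Agent.BEX.D.Reach
import Pool.Agent.BEX.LinkKM
import Pool.Agent.QL.Pow

/-!
# BEX, part D0: the masses of all states are bounded; the powers of the row operator tend to `0` off the empty state
-/

namespace Pool.Agent.BEX

open Pool.Agent.HHP Pool.Agent.Hhelper14.SAW Filter Topology
open scoped ENNReal

section

variable {L : ℕ}

/-- Product bound. -/
theorem Rm_split (M : ℕ) {σ σ1 σ2 : StL L} (hs : Spl σ.1 σ1.1 σ2.1) :
    Rm L M σ ≤ Rm L M σ1 * Rm L M σ2 := by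
  have h := rm_split M hs σ1.2 σ2.2
  have h0 := QL.K_pow L M (em L) σ
  have h1 := QL.K_pow L M (em L) σ1
  have h2 := QL.K_pow L M (em L) σ2
  have he : (em L).1 = id := rfl
  rw [he] at h0 h1 h2
  rw [← h0, ← h1, ← h2, ← ENNReal.ofReal_mul (K_pow_nn _ _ _)] at h
  exact (ENNReal.ofReal_le_ofReal_iff (mul_nonneg (K_pow_nn _ _ _) (K_pow_nn _ _ _))).1 h

theorem K_em (σ : StL L) : K L σ (em L) = if σ = em L then 1 else 0 := by
  have h1 := MT_zero_eq L St.emp σ
  rw [MT_row _ _ (nrm_zero_ne _)] at h1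
  have h2 : ((K L σ (em L) : ℝ) : ℂ) = (((if σ = em L then 1 else 0) : ℝ) : ℂ) := by
    rw [← show St.emp = em L from rfl, ← h1]
    split_ifs <;> simp
  exact_mod_cast h2

theorem Rm_em (M : ℕ) : Rm L M (em L) = 1 := by
  unfold Rm
  induction M with
  | zero => simp
  | succ n ih =>
    rw [pow_succ, Matrix.mul_apply]
    simp only [K_em, mul_ite, mul_one, mul_zero, Finset.sum_ite_eq', Finset.mem_univ, if_true]
    exact ih

theorem Rm_nn (M : ℕ) (σ : StL L) : 0 ≤ Rm L M σ := K_pow_nn _ _ _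

/-- All the masses are bounded if those of the single arcs are. -/
theorem Rm_bdd_aux (M : ℕ) {B : ℝ} (hB1 : 1 ≤ B) (hB : ∀ (i j : Fin L) (h : i ≠ j), Rm L M (ars i j h) ≤ B)
    (n : ℕ) : ∀ σ : StL L, (Finset.univ.filter fun z => σ.1 z ≠ z).card ≤ n → Rm L M σ ≤ B ^ n := by
  induction n with
  | zero =>
    intro σ h
    have : σ = em L := by
      rw [em_iff]
      intro i
      by_contra hi
      have h1 : (Finset.univ.filter fun z => σ.1 z ≠ z) = ∅ := Finset.card_eq_zero.1 (by omega)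
      have h2 : i ∈ (Finset.univ.filter fun z => σ.1 z ≠ z) := by simp [hi]
      rw [h1] at h2
      exact absurd h2 (Finset.notMem_empty _)
    rw [this, Rm_em, pow_zero]
  | succ n ih =>
    intro σ h
    by_cases hem : σ = em L
    · rw [hem, Rm_em]
      exact one_le_pow₀ hB1
    · rw [em_iff] at hem
      push Not at hem
      obtain ⟨i, hi⟩ := hem
      have hσ : IV σ.1 := σ.2
      have hne : i ≠ σ.1 i := fun e => hi e.symm
      have hI : IV (rmv i (σ.1 i) σ.1) := rmv_IV hσ rfl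
      set ρ : StL L := ⟨rmv i (σ.1 i) σ.1, hI⟩ with hρ
      have hρc : (Finset.univ.filter fun z => ρ.1 z ≠ z).card < (Finset.univ.filter fun z => σ.1 z ≠ z).card :=
        rmv_supp (i := i) (j := σ.1 i) (f := σ.1) hi
      have hs : Spl σ.1 (ars i (σ.1 i) hne).1 ρ.1 := by
        intro z
        by_cases h1 : z = i
        · subst h1; left; simp [ars, ar, hρ, rmv]
        · by_cases h2 : z = σ.1 i
          · subst h2; left; simp [ars, ar, hρ, rmv, h1, hσ i]
          · right; simp [ars, ar, hρ, rmv, h1, h2]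
      calc Rm L M σ ≤ Rm L M (ars i (σ.1 i) hne) * Rm L M ρ := Rm_split M hs
        _ ≤ B * B ^ n := mul_le_mul (hB _ _ _) (ih ρ (by omega)) (Rm_nn _ _) (by linarith)
        _ = B ^ (n + 1) := by ring

theorem Rm_bdd {B : ℝ} (hB : ∀ (M : ℕ) (i j : Fin L) (h : i ≠ j), Rm L M (ars i j h) ≤ B) :
    ∃ C : ℝ, ∀ (M : ℕ) (σ : StL L), Rm L M σ ≤ C := by
  refine ⟨(max B 1) ^ L, fun M σ => ?_⟩
  apply Rm_bdd_aux M (le_max_right _ _) (fun i j h => (hB M i j h).trans (le_max_left _ _)) L σ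
  calc _ ≤ (Finset.univ : Finset (Fin L)).card := Finset.card_le_card (Finset.filter_subset _ _)
    _ = L := by simp

/-- Decay from the noncrossing states. -/
theorem decay_planar {C : ℝ} (hC : ∀ (M : ℕ) (σ : StL L), Rm L M σ ≤ C) {σ : StL L} (hσ : σ ≠ em L)
    (hc : Unc.NCr (fun i : Fin L => (i : ℕ)) σ) (τ : StL L) :
    Tendsto (fun n : ℕ => (K L ^ n) σ τ) atTop (𝓝 0) := by
  obtain ⟨m, hm⟩ := reach _ σ le_rfl hc
  -- the masses converge
  have hmono : Monotone fun n : ℕ => Rm L n τ := Rm_mono L τ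
  have hbdd : BddAbove (Set.range fun n : ℕ => Rm L n τ) := ⟨C, by rintro _ ⟨n, rfl⟩; exact hC n τ⟩
  have hlim := tendsto_atTop_ciSup hmono hbdd
  have hlim' : Tendsto (fun n : ℕ => Rm L (m + n) τ) atTop (𝓝 (⨆ n : ℕ, Rm L n τ)) := by
    have := hlim.comp (tendsto_add_atTop_nat m)
    refine this.congr fun n => ?_
    simp only [Function.comp]
    rw [add_comm]
  have hdiff : Tendsto (fun n : ℕ => (Rm L (m + n) τ - Rm L n τ) / (K L ^ m) (em L) σ) atTop (𝓝 0) := by
    have := (hlim'.sub hlim).div_const ((K L ^ m) (em L) σ)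
    simpa using this
  refine squeeze_zero (fun n => K_pow_nn _ _ _) (fun n => ?_) hdiff
  rw [le_div_iff₀ hm]
  have h1 : Rm L (m + n) τ = ∑ ρ, (K L ^ m) (em L) ρ * (K L ^ n) ρ τ := by
    unfold Rm
    rw [pow_add, Matrix.mul_apply]
  have h2 : (K L ^ m) (em L) (em L) * (K L ^ n) (em L) τ + (K L ^ m) (em L) σ * (K L ^ n) σ τ ≤
      ∑ ρ, (K L ^ m) (em L) ρ * (K L ^ n) ρ τ := by
    have h3 : ∑ ρ ∈ ({em L, σ} : Finset (StL L)), (K L ^ m) (em L) ρ * (K L ^ n) ρ τ ≤
        ∑ ρ, (K L ^ m) (em L) ρ * (K L ^ n) ρ τ :=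
      Finset.sum_le_sum_of_subset_of_nonneg (Finset.subset_univ _)
        (fun _ _ _ => mul_nonneg (K_pow_nn _ _ _) (K_pow_nn _ _ _))
    rwa [Finset.sum_pair (Ne.symm hσ)] at h3
  have h4 : (K L ^ m) (em L) (em L) = 1 := Rm_em m
  rw [h4, one_mul, ← h1] at h2
  have h5 : Rm L n τ = (K L ^ n) (em L) τ := rfl
  rw [h5]
  linarith

/-- D0: the powers of the normalised transfer matrix at `U = 0` tend to `0` off the empty state. -/
theorem PowZero_of_bdd (L : ℕ) {B : ℝ} (hB : ∀ (M : ℕ) (i j : Fin L) (h : i ≠ j), Rm L M (ars i j h) ≤ B) :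
    PowZero (List.finRange L) := by
  obtain ⟨C, hC⟩ := Rm_bdd hB
  refine Unc.PowZero_of_planar (List.finRange L) (fun i : Fin L => (i : ℕ)) ?_
  intro m hm hc m' _
  simp only [MT_zero_pow]
  have h1 := decay_planar hC (σ := m) hm hc m'
  have h2 := (Complex.continuous_ofReal.tendsto (0 : ℝ)).comp h1
  rw [Complex.ofReal_zero] at h2
  exact h2

end

end Pool.Agent.BEX
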