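import Pool.Agent.BEX.Row

/-!
# BEX, part D: decorated states

`f` = involution of the labels, `d a` = vertex list of the strand which ends in the label `a`, read from `a`.
-/

namespace Pool.Agent.BEX.HistD

variable {Λ V : Type*}

/-- Decorated state: `R` = relation of consecutive vertices, `cu a` = property of the first vertex of `d a`. -/
structure Dec (R : V → V → Prop) (cu : Λ → V → Prop) (f : Λ → Λ) (d : Λ → List V) : Prop where
  inv : ∀ a, f (f a) = a
  rev : ∀ a, d (f a) = (d a).reverse
  emp : ∀ a, f a = a → d a = []
  chn : ∀ a, (d a).IsChain R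
  hd : ∀ a u, (d a).head? = some u → cu a u

theorem Dec.imp {R R' : V → V → Prop} {cu cu' : Λ → V → Prop} {f : Λ → Λ} {d : Λ → List V} (h : Dec R cu f d)
    (hR : ∀ u v, R u v → R' u v) (hc : ∀ a u, f a ≠ a → (d a).head? = some u → cu a u → cu' a u) : Dec R' cu' f d where
  inv := h.inv
  rev := h.rev
  emp := h.emp
  chn := fun a => (h.chn a).imp (fun u v => hR u v)
  hd := fun a u hu => hc a u (fun h0 => by rw [h.emp a h0] at hu; simp at hu) hu (h.hd a u hu)

theorem Dec.nil_iff {R : V → V → Prop} {cu : Λ → V → Prop} {f : Λ → Λ} {d : Λ → List V} (h : Dec R cu f d) (a : Λ) :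
    d (f a) = [] ↔ d a = [] := by
  rw [h.rev]; simp

/-- Additive functions of lists. -/
structure Add (φ : List V → ℕ) : Prop where
  nil : φ [] = 0
  app : ∀ l l', φ (l ++ l') = φ l + φ l'
  rev : ∀ l, φ l.reverse = φ l

theorem add_length : Add (fun l : List V => l.length) := ⟨rfl, fun l l' => by simp, fun l => by simp⟩

theorem add_count [DecidableEq V] (v : V) : Add (fun l : List V => l.count v) :=
  ⟨by simp, fun l l' => by simp, fun l => by simp⟩

/-- Sum over all the labels. -/
def W [Fintype Λ] (φ : List V → ℕ) (d : Λ → List V) : ℕ := ∑ a, φ (d a)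

variable [DecidableEq Λ]

/-- The strand which ends in `a` (if there is one) gets the new first vertex `v`. -/
def eX (f : Λ → Λ) (a : Λ) (v : V) (d : Λ → List V) : Λ → List V := fun z =>
  if f a = a then d z else if z = a then v :: d a else if z = f a then d (f a) ++ [v] else d z

/-- Exchange of labels. -/
def swD (a b : Λ) (d : Λ → List V) : Λ → List V := fun z => d (Equiv.swap a b z)

/-- The strands which end in `a` and `b` are joined. -/
def joD (f : Λ → Λ) (a b : Λ) (d : Λ → List V) : Λ → List V := fun z =>
  if z = a then [] else if z = b then [] else if z = f a then d (f a) ++ d b else if z = f b then d (f b) ++ d a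
    else d z

/-- New strand from `a` to `b` with the list `l`. -/
def nwD (a b : Λ) (l : List V) (d : Λ → List V) : Λ → List V := fun z =>
  if z = a then l else if z = b then l.reverse else d z

section ops

variable {R : V → V → Prop} {cu : Λ → V → Prop} {f : Λ → Λ} {d : Λ → List V}

theorem Dec.ext (h : Dec R cu f d) (hR : ∀ u v, R u v → R v u) (a : Λ) (v : V)
    (hv : ∀ u, (d a).head? = some u → R v u) (h0 : f a ≠ a → d a = [] → cu (f a) v) :
    Dec R (fun z u => if z = a then u = v else cu z u) f (eX f a v d) := by
  by_cases ha : f a = a
  · have e : eX f a v d = d := by funext z; simp [eX, ha]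
    rw [e]
    refine h.imp (fun _ _ => id) ?_
    intro z u hz _ hu
    have : z ≠ a := fun e => hz (e ▸ ha)
    simpa [this] using hu
  · have ha' : a ≠ f a := fun e => ha e.symm
    refine ⟨h.inv, ?_, ?_, ?_, ?_⟩
    · intro z
      unfold eX
      simp only [ha, if_false]
      by_cases h1 : z = a
      · subst h1
        simp [ha, h.rev]
      · by_cases h2 : z = f a
        · subst h2
          simp [h.inv, ha, h.rev]
        · have h3 : f z ≠ a := fun e => h2 (by rw [← e, h.inv])
          have h4 : f z ≠ f a := fun e => h1 (by rw [← h.inv z, e, h.inv])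
          simp [h1, h2, h3, h4, h.rev]
    · intro z hz
      unfold eX
      have h1 : z ≠ a := fun e => ha (e ▸ hz)
      have h2 : z ≠ f a := by
        intro e
        rw [e, h.inv] at hz
        exact ha' hz
      simp [h1, h2, h.emp z hz]
    · intro z
      unfold eX
      simp only [ha, if_false]
      by_cases h1 : z = a
      · subst h1
        simp only [if_true]
        rw [List.isChain_cons]
        exact ⟨fun y hy => hv y hy, h.chn z⟩
      · by_cases h2 : z = f a
        · simp only [h1, if_false, h2, if_true]
          subst h2
          simp only [ha, if_false]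
          rw [List.isChain_append]
          refine ⟨h.chn _, by simp, ?_⟩
          intro x hx y hy
          simp only [List.head?_cons, Option.mem_def, Option.some.injEq] at hy
          subst hy
          rw [h.rev, List.getLast?_reverse] at hx
          exact hR _ _ (hv x hx)
        · simp only [h1, h2, if_false]
          exact h.chn z
    · intro z u
      unfold eX
      simp only [ha, if_false]
      by_cases h1 : z = a
      · subst h1
        simp only [if_true, List.head?_cons, Option.some.injEq]
        intro e; exact e.symm
      · simp only [h1, if_false]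
        by_cases h2 : z = f a
        · simp only [h2, if_true]
          intro hu
          rcases hl : d (f a) with _ | ⟨x, l⟩
          · rw [hl] at hu
            simp only [List.nil_append, List.head?_cons, Option.some.injEq] at hu
            subst hu
            exact h0 ha ((h.nil_iff a).1 hl)
          · rw [hl] at hu
            apply h.hd
            rw [hl]
            simpa using hu
        · simp only [h2, if_false]
          exact h.hd z u

theorem Dec.sw (h : Dec R cu f d) (a b : Λ) :
    Dec R (fun z u => cu (Equiv.swap a b z) u) (cj a b f) (swD a b d) where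
  inv := fun z => by simp [cj, h.inv]
  rev := fun z => by simp [cj, swD, h.rev]
  emp := fun z hz => by
    unfold swD
    apply h.emp
    unfold cj at hz
    have := congrArg (Equiv.swap a b) hz
    simpa using this
  chn := fun z => h.chn _
  hd := fun z u hu => h.hd _ u hu

theorem Dec.jo (h : Dec R cu f d) (hR : ∀ u v, R u v → R v u) (a b : Λ) (ha : f a ≠ a) (hb : f b ≠ b) (hab : f a ≠ b)
    (hne : a ≠ b) (hna : d a ≠ []) (hnb : d b ≠ [])
    (hv : ∀ u v, (d a).head? = some u → (d b).head? = some v → R u v) : Dec R cu (ct a b f) (joD f a b d) := by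
  have hba : f b ≠ a := fun e => hab (by rw [← e, h.inv])
  have hfab : f a ≠ f b := fun e => hne (by rw [← h.inv a, e, h.inv])
  have ha1 : a ≠ f a := fun e => ha e.symm
  have hb1 : b ≠ f b := fun e => hb e.symm
  have hab1 : b ≠ f a := fun e => hab e.symm
  have hba1 : a ≠ f b := fun e => hba e.symm
  refine ⟨?_, ?_, ?_, ?_, ?_⟩
  · intro z
    unfold ct
    by_cases h1 : z = a
    · subst h1; simp
    by_cases h2 : z = b
    · subst h2; simp [hne.symm]
    by_cases h3 : z = f a
    · subst h3; simp [h1, h2, hba, hb, hfab.symm]
    by_cases h4 : z = f b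
    · subst h4; simp [h1, h2, h3, ha, hab]
    have h5 : f z ≠ a := fun e => h3 (by rw [← e, h.inv])
    have h6 : f z ≠ b := fun e => h4 (by rw [← e, h.inv])
    have h7 : f z ≠ f a := fun e => h1 (by rw [← h.inv z, e, h.inv])
    have h8 : f z ≠ f b := fun e => h2 (by rw [← h.inv z, e, h.inv])
    simp [h1, h2, h3, h4, h5, h6, h7, h8, h.inv]
  · intro z
    unfold ct joD
    by_cases h1 : z = a
    · subst h1; simp
    by_cases h2 : z = b
    · subst h2; simp [hne.symm]
    by_cases h3 : z = f a
    · subst h3; simp [h1, h2, hba, hb, hfab.symm, h.rev]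
    by_cases h4 : z = f b
    · subst h4; simp [h1, h2, h3, ha, hab, h.rev]
    have h5 : f z ≠ a := fun e => h3 (by rw [← e, h.inv])
    have h6 : f z ≠ b := fun e => h4 (by rw [← e, h.inv])
    have h7 : f z ≠ f a := fun e => h1 (by rw [← h.inv z, e, h.inv])
    have h8 : f z ≠ f b := fun e => h2 (by rw [← h.inv z, e, h.inv])
    simp [h1, h2, h3, h4, h5, h6, h7, h8, h.rev]
  · intro z
    unfold ct joD
    by_cases h1 : z = a
    · simp [h1]
    by_cases h2 : z = b
    · simp [h2]
    by_cases h3 : z = f a
    · simp only [h1, h2, h3, if_true, if_false]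
      subst h3
      simp only [h1, h2, if_false]
      intro e
      exact absurd e hfab.symm
    by_cases h4 : z = f b
    · simp only [h1, h2, h3, if_false]
      subst h4
      simp only [if_true]
      intro e
      exact absurd e hfab
    simp only [h1, h2, h3, h4, if_false]
    exact h.emp z
  · have key : ∀ x y : Λ, d x ≠ [] → (∀ u v, (d x).head? = some u → (d y).head? = some v → R u v) →
        (d (f x) ++ d y).IsChain R := by
      intro x y _ hxy
      rw [List.isChain_append]
      refine ⟨h.chn _, h.chn _, ?_⟩
      intro u hu v hv
      rw [h.rev, List.getLast?_reverse] at hu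
      exact hxy u v hu hv
    intro z
    unfold joD
    by_cases h1 : z = a
    · simp [h1]
    by_cases h2 : z = b
    · simp [h2]
    by_cases h3 : z = f a
    · simp only [h1, h2, h3, if_true, if_false]
      subst h3
      simp only [h1, h2, if_false]
      exact key a b hna hv
    by_cases h4 : z = f b
    · simp only [h1, h2, h3, if_false]
      subst h4
      simp only [if_true]
      exact key b a hnb (fun u v hu hv' => hR _ _ (hv v u hv' hu))
    simp only [h1, h2, h3, h4, if_false]
    exact h.chn z
  · have key : ∀ x : Λ, ∀ l : List V, d x ≠ [] → ∀ u, (d (f x) ++ l).head? = some u → cu (f x) u := by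
      intro x l hx u hu
      have hx' : d (f x) ≠ [] := fun e => hx ((h.nil_iff x).1 e)
      obtain ⟨y, t, hy⟩ := List.exists_cons_of_ne_nil hx'
      apply h.hd
      rw [hy] at hu ⊢
      simpa using hu
    intro z u
    unfold joD
    by_cases h1 : z = a
    · simp [h1]
    by_cases h2 : z = b
    · simp [h2]
    by_cases h3 : z = f a
    · subst h3
      simp only [h1, h2, if_true, if_false]
      exact key a _ hna u
    by_cases h4 : z = f b
    · subst h4
      simp only [h1, h2, h3, if_true, if_false]
      exact key b _ hnb u
    simp only [h1, h2, h3, h4, if_false]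
    exact h.hd z u

theorem Dec.nw (h : Dec R cu f d) (a b : Λ) (ha : f a = a) (hb : f b = b) (hne : a ≠ b) (l : List V)
    (hl : l.IsChain R) (hl' : l.reverse.IsChain R) :
    Dec R (fun z u => if z = a then l.head? = some u else if z = b then l.getLast? = some u else cu z u)
      (ar a b f) (nwD a b l d) := by
  refine ⟨?_, ?_, ?_, ?_, ?_⟩
  · intro z
    unfold ar
    by_cases h1 : z = a
    · subst h1; simp [hne.symm]
    by_cases h2 : z = b
    · subst h2; simp [hne.symm]
    have h5 : f z ≠ a := fun e => h1 (by rw [← h.inv z, e, ha])
    have h6 : f z ≠ b := fun e => h2 (by rw [← h.inv z, e, hb])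
    simp [h1, h2, h5, h6, h.inv]
  · intro z
    unfold ar nwD
    by_cases h1 : z = a
    · subst h1; simp [hne.symm]
    by_cases h2 : z = b
    · subst h2; simp [hne.symm]
    have h5 : f z ≠ a := fun e => h1 (by rw [← h.inv z, e, ha])
    have h6 : f z ≠ b := fun e => h2 (by rw [← h.inv z, e, hb])
    simp [h1, h2, h5, h6, h.rev]
  · intro z
    unfold ar nwD
    by_cases h1 : z = a
    · simp only [h1, if_true]
      intro e; exact absurd e hne.symm
    by_cases h2 : z = b
    · simp only [h1, h2, if_true, if_false]
      simp only [hne.symm, if_false]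
      intro e; exact absurd e hne
    simp only [h1, h2, if_false]
    exact h.emp z
  · intro z
    unfold nwD
    split_ifs
    · exact hl
    · exact hl'
    · exact h.chn z
  · intro z u
    unfold nwD
    by_cases h1 : z = a
    · simp [h1]
    by_cases h2 : z = b
    · simp [h2, hne.symm]
    simp only [h1, h2, if_false]
    exact h.hd z u

end ops

end Pool.Agent.BEX.HistD
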