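import Pool.Agent.BEX.D.HistW

/-!
# BEX, part D: the decorated hop keeps the decoration
-/

namespace Pool.Agent.BEX.HistD

variable {Λ V : Type*} [DecidableEq Λ]

theorem eX_other (f : Λ → Λ) (a z : Λ) (v : V) (d : Λ → List V) (hz : z ≠ a) :
    (eX f a v d z = d z) ∨ (f a ≠ a ∧ z = f a ∧ eX f a v d z = d z ++ [v]) := by
  unfold eX
  by_cases h1 : f a = a
  · left; simp [h1]
  · by_cases h2 : z = f a
    · right
      subst h2
      simp [h1]
    · left; simp [h1, hz, h2]

theorem eX_self (f : Λ → Λ) (a : Λ) (v : V) (d : Λ → List V) (ha : f a ≠ a) : eX f a v d a = v :: d a := by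
  unfold eX; simp [ha]

theorem eX_none (f : Λ → Λ) (a : Λ) (v : V) (d : Λ → List V) (ha : f a = a) : eX f a v d = d := by
  funext z
  unfold eX; simp [ha]

section

variable {R : V → V → Prop} {cu : Λ → V → Prop} {f f' : Λ → Λ} {d : Λ → List V} {r : Bool} {b j : Λ} {m : ℕ} {P1 P2 : V}

/-- Both extensions of a hop. -/
theorem two_ext (hR : ∀ u v, R u v → R v u) (hbj : b ≠ j) (hd : Dec R cu f d)
    (h1 : ∀ u, (d b).head? = some u → R P1 u) (h2 : ∀ u, (d j).head? = some u → R P2 u)
    (hb : f b ≠ b → d b = [] → f b ≠ j ∧ cu (f b) P1) (hj : f j ≠ j → d j = [] → f j ≠ b ∧ cu (f j) P2) :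
    Dec R (fun z u => if z = j then u = P2 else if z = b then u = P1 else cu z u) f (eX f j P2 (eX f b P1 d)) := by
  have a1 := hd.ext hR b P1 h1 (fun h0 h00 => (hb h0 h00).2)
  have hjb : j ≠ b := hbj.symm
  have a2 := a1.ext hR j P2 (by
      intro u hu
      rcases eX_other f b j P1 d hjb with e | ⟨e1, e2, e3⟩
      · rw [e] at hu; exact h2 u hu
      · rcases hl : d j with _ | ⟨x, l⟩
        · exfalso
          have h3 : d b = [] := by
            rw [e2] at hl
            exact (hd.nil_iff b).1 hl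
          exact (hb e1 h3).1 e2.symm
        · apply h2
          rw [e3, hl] at hu
          rw [hl]
          simpa using hu) (by
      intro h3 h4
      rcases eX_other f b j P1 d hjb with e | ⟨e1, e2, e3⟩
      · rw [e] at h4
        have h5 := hj h3 h4
        simp only [h5.1, if_false]
        exact h5.2
      · rw [e3] at h4
        simp at h4)
  exact a2

theorem hop_dec (hR : ∀ u v, R u v → R v u) (hbj : b ≠ j) (h : hop r b j f = some (f', m)) (hd : Dec R cu f d)
    (h1 : ∀ u, (d b).head? = some u → R P1 u) (h2 : ∀ u, (d j).head? = some u → R P2 u)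
    (h12 : r = true → R P1 P2)
    (hb : f b ≠ b → d b = [] → f b ≠ j ∧ cu (f b) P1) (hj : f j ≠ j → d j = [] → f j ≠ b ∧ cu (f j) P2) :
    Dec R (fun z u => if z = b then u = P2 else if z = j then u = P1 else cu z u) f' (hopD r b j P1 P2 f d) := by
  have hjb : j ≠ b := hbj.symm
  have a2 := two_ext hR hbj hd h1 h2 hb hj
  obtain ⟨_, hc⟩ := hop_cases h
  rcases hc with ⟨hr, e⟩ | ⟨hr, h3, h4, e⟩ | ⟨hr, h3, h4, e⟩ | ⟨hr, h3, h4, e⟩ | ⟨hr, h3, h4, h5, e⟩
  · subst hr; subst e
    have a3 := a2.sw b j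
    unfold hopD
    simp only [if_true]
    refine a3.imp (fun _ _ => id) ?_
    intro z u _ _
    by_cases z1 : z = b
    · subst z1
      simp
    · by_cases z2 : z = j
      · subst z2
        simp [hbj, z1]
      · rw [Equiv.swap_apply_of_ne_of_ne z1 z2]
        simp [z1, z2]
  · subst hr; subst e
    unfold hopD
    simp only [Bool.true_eq_false, if_false, h3, h4, if_true]
    have a3 := hd.nw b j h3 h4 hbj [P2, P1] (by simpa using hR _ _ (h12 rfl)) (by simpa using h12 rfl)
    refine a3.imp (fun _ _ => id) ?_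
    intro z u _ _
    simp only [List.head?_cons, Option.some.injEq]
    by_cases z1 : z = b
    · simp only [z1, if_true]; exact fun e => e.symm
    · by_cases z2 : z = j
      · simp only [z1, z2, if_true, if_false]
        simp [hjb, eq_comm]
      · simp [z1, z2]
  · subst hr; subst e
    unfold hopD
    simp only [Bool.true_eq_false, if_false, h3, h4, if_true]
    have b1 := hd.ext hR j P2 h2 (fun h0 h00 => (hj h0 h00).2)
    have b2 := b1.ext hR j P1 (by
        intro u hu
        rw [eX_self _ _ _ _ h4] at hu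
        simp only [List.head?_cons, Option.some.injEq] at hu
        subst hu
        exact h12 rfl) (by
        intro _ h5
        rw [eX_self _ _ _ _ h4] at h5
        simp at h5)
    refine b2.imp (fun _ _ => id) ?_
    intro z u hz _
    have z1 : z ≠ b := fun e => hz (e ▸ h3)
    by_cases z2 : z = j
    · simp [z2, hjb]
    · simp [z1, z2]
  · subst hr; subst e
    unfold hopD
    simp only [Bool.true_eq_false, if_false, h3, h4, if_true]
    have b1 := hd.ext hR b P1 h1 (fun h0 h00 => (hb h0 h00).2)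
    have b2 := b1.ext hR b P2 (by
        intro u hu
        rw [eX_self _ _ _ _ h3] at hu
        simp only [List.head?_cons, Option.some.injEq] at hu
        subst hu
        exact hR _ _ (h12 rfl)) (by
        intro _ h5
        rw [eX_self _ _ _ _ h3] at h5
        simp at h5)
    refine b2.imp (fun _ _ => id) ?_
    intro z u hz _
    have z1 : z ≠ j := fun e => hz (e ▸ h4)
    by_cases z2 : z = b
    · simp [z2]
    · simp [z1, z2]
  · subst hr; subst e
    unfold hopD
    simp only [Bool.true_eq_false, if_false, h3, h4]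
    have h6 : j ≠ f b := fun e => h5 e.symm
    have h7 : b ≠ f j := fun e => h5 (by rw [e, hd.inv])
    have c1 : eX f j P2 (eX f b P1 d) j = P2 :: eX f b P1 d j := eX_self _ _ _ _ h4
    have c2 : eX f j P2 (eX f b P1 d) b = P1 :: d b := by
      rcases eX_other f j b P2 (eX f b P1 d) hbj with e | ⟨_, e, _⟩
      · rw [e, eX_self _ _ _ _ h3]
      · exact absurd e h7
    have a3 := a2.jo hR b j h3 h4 h5 hbj (by rw [c2]; simp) (by rw [c1]; simp) (by
      intro u v hu hv
      rw [c2] at hu
      rw [c1] at hv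
      simp only [List.head?_cons, Option.some.injEq] at hu hv
      subst hu; subst hv
      exact h12 rfl)
    refine a3.imp (fun _ _ => id) ?_
    intro z u hz _
    have z1 : z ≠ b := by
      intro e; apply hz; subst e; simp [ct]
    have z2 : z ≠ j := by
      intro e; apply hz; subst e; simp [ct, z1]
    simp [z1, z2]

theorem hop_per (h : hop r b j f = some (f', m)) (hd : Dec R cu f d) (hbj : b ≠ j) :
    Per d (hopD r b j P1 P2 f d) := by
  obtain ⟨_, hc⟩ := hop_cases h
  have k1 := per_eX f d b P1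
  have k2 := per_eX f (eX f b P1 d) j P2
  rcases hc with ⟨hr, e⟩ | ⟨hr, h3, h4, e⟩ | ⟨hr, h3, h4, e⟩ | ⟨hr, h3, h4, e⟩ | ⟨hr, h3, h4, h5, e⟩
  · unfold hopD
    simp only [hr, if_true]
    exact (k1.trans k2).trans (per_swD _ _ _)
  · unfold hopD
    simp only [hr, Bool.true_eq_false, if_false, h3, h4, if_true]
    exact per_nwD _ _ _ _ (hd.emp b h3) (hd.emp j h4)
  · unfold hopD
    simp only [hr, Bool.true_eq_false, if_false, h3, h4, if_true]
    exact (per_eX _ _ _ _).trans (per_eX _ _ _ _)
  · unfold hopD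
    simp only [hr, Bool.true_eq_false, if_false, h3, h4, if_true]
    exact (per_eX _ _ _ _).trans (per_eX _ _ _ _)
  · unfold hopD
    simp only [hr, Bool.true_eq_false, if_false, h3, h4]
    refine (k1.trans k2).trans ?_
    have h7 : f j ≠ b := fun e => h5 (by rw [← e, hd.inv])
    have h8 : f b ≠ f j := fun e => hbj (by rw [← hd.inv b, e, hd.inv])
    have h6 : j ≠ f b := fun e => h5 e.symm
    set d2 := eX f j P2 (eX f b P1 d)
    intro z
    by_cases z1 : z = b
    · subst z1
      refine ⟨f j, ?_⟩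
      unfold joD
      simp only [h7, h4, h8.symm, if_false, if_true]
      exact (List.suffix_append _ _).isInfix
    by_cases z2 : z = j
    · subst z2
      refine ⟨f b, ?_⟩
      unfold joD
      simp only [h3, h5, if_false, if_true]
      exact (List.suffix_append _ _).isInfix
    refine ⟨z, ?_⟩
    unfold joD
    simp only [z1, z2, if_false]
    split_ifs with z3 z4
    · rw [z3]; exact (List.prefix_append _ _).isInfix
    · rw [z4]; exact (List.prefix_append _ _).isInfix
    · exact List.infix_rfl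

theorem hop_rung (h : hop r b j f = some (f', m)) (hi : ∀ a, f (f a) = a) (hbj : b ≠ j) (hr : r = true) :
    ∃ a, [P1, P2] <:+: hopD r b j P1 P2 f d a ∨ [P2, P1] <:+: hopD r b j P1 P2 f d a := by
  obtain ⟨_, hc⟩ := hop_cases h
  rcases hc with ⟨hr', e⟩ | ⟨hr, h3, h4, e⟩ | ⟨hr, h3, h4, e⟩ | ⟨hr, h3, h4, e⟩ | ⟨hr, h3, h4, h5, e⟩
  · rw [hr] at hr'
    exact absurd hr' (by simp)
  · refine ⟨b, Or.inr ?_⟩
    unfold hopD
    simp only [hr, Bool.true_eq_false, if_false, h3, h4, if_true]
    unfold nwD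
    simp
  · refine ⟨j, Or.inl ?_⟩
    unfold hopD
    simp only [hr, Bool.true_eq_false, if_false, h3, h4, if_true]
    rw [eX_self _ _ _ _ h4, eX_self _ _ _ _ h4]
    exact ⟨[], d j, by simp⟩
  · refine ⟨b, Or.inr ?_⟩
    unfold hopD
    simp only [hr, Bool.true_eq_false, if_false, h3, h4, if_true]
    rw [eX_self _ _ _ _ h3, eX_self _ _ _ _ h3]
    exact ⟨[], d b, by simp⟩
  · refine ⟨f b, Or.inl ?_⟩
    have h7 : f j ≠ b := fun e => h5 (by rw [← e, hi])
    have h8 : f b ≠ f j := fun e => hbj (by rw [← hi b, e, hi])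
    have h6 : j ≠ f b := fun e => h5 e.symm
    unfold hopD
    simp only [hr, Bool.true_eq_false, if_false, h3, h4]
    unfold joD
    simp only [h3, h5, if_false, if_true]
    rw [eX_self _ _ _ _ h4]
    have e1 : eX f j P2 (eX f b P1 d) (f b) = d (f b) ++ [P1] := by
      rcases eX_other f j (f b) P2 (eX f b P1 d) h5 with e | ⟨_, e, _⟩
      · rw [e]
        rcases eX_other f b (f b) P1 d h3 with e | ⟨_, _, e⟩
        · exfalso
          unfold eX at e
          simp [h3] at e
        · exact e
      · exact absurd e h8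
    rw [e1]
    exact ⟨d (f b), eX f b P1 d j, by simp⟩

theorem hop_W [Fintype Λ] {φ : List V → ℕ} (hφ : Add φ) (hd : Dec R cu f d) (hbj : b ≠ j) (hR : ∀ u v, R u v → R v u)
    (h1 : ∀ u, (d b).head? = some u → R P1 u) (h2 : ∀ u, (d j).head? = some u → R P2 u)
    (hb : f b ≠ b → d b = [] → f b ≠ j ∧ cu (f b) P1) (hj : f j ≠ j → d j = [] → f j ≠ b ∧ cu (f j) P2)
    (h : hop r b j f = some (f', m)) :
    W φ (hopD r b j P1 P2 f d) = W φ d + 2 * (us r f b * φ [P1] + us r f j * φ [P2]) := by
  have a2 := two_ext hR hbj hd h1 h2 hb hj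
  have key : W φ (eX f j P2 (eX f b P1 d)) =
      W φ d + 2 * ((if f b = b then 0 else 1) * φ [P1] + (if f j = j then 0 else 1) * φ [P2]) := by
    by_cases h5 : f b = b <;> by_cases h6 : f j = j
    · rw [eX_none _ _ _ _ h5, eX_none _ _ _ _ h6]
      simp [h5, h6]
    · rw [eX_none _ _ _ _ h5, W_eX hφ _ _ h6]
      simp [h5, h6]
    · rw [eX_none _ _ _ _ h6, W_eX hφ _ _ h5]
      simp [h5, h6]
    · rw [W_eX hφ _ _ h6, W_eX hφ _ _ h5]
      simp only [h5, h6, if_false]
      ring
  obtain ⟨_, hc⟩ := hop_cases h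
  rcases hc with ⟨hr, e⟩ | ⟨hr, h3, h4, e⟩ | ⟨hr, h3, h4, e⟩ | ⟨hr, h3, h4, e⟩ | ⟨hr, h3, h4, h5, e⟩
  · unfold hopD us
    simp only [hr, if_true, true_and]
    rw [W_swD, key]
  · unfold hopD us
    simp only [hr, Bool.true_eq_false, if_false, h3, h4, if_true, false_and]
    rw [W_nwD hφ b j hbj _ (hd.emp b h3) (hd.emp j h4)]
    rw [show [P2, P1] = [P2] ++ [P1] from rfl, hφ.app]
    ring
  · unfold hopD us
    simp only [hr, Bool.true_eq_false, if_false, h3, h4, if_true, false_and]
    rw [W_eX hφ _ _ h4, W_eX hφ _ _ h4]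
    ring
  · unfold hopD us
    simp only [hr, Bool.true_eq_false, if_false, h3, h4, if_true, false_and]
    rw [W_eX hφ _ _ h3, W_eX hφ _ _ h3]
    ring
  · unfold hopD us
    simp only [hr, Bool.true_eq_false, if_false, h3, h4, false_and]
    rw [W_joD hφ a2 b j h3 h4 h5 hbj, key]
    simp [h3, h4]

end

end Pool.Agent.BEX.HistD
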