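import Pool.Agent.BEX.D.HistE

/-!
# BEX, part D: empty strands, failures, lists of hops
-/

namespace Pool.Agent.BEX.HistD

variable {Λ V : Type*} [DecidableEq Λ]

/-- A closed chain. -/
def Loop (R : V → V → Prop) : Prop := ∃ C : List V, C.Nodup ∧ 3 ≤ C.length ∧ C.IsChain R ∧
  ∀ u v, C.head? = some u → C.getLast? = some v → R v u

theorem eX_nil {f : Λ → Λ} {a z : Λ} {v : V} {d : Λ → List V} (hz : f z ≠ z) (h : eX f a v d z = []) :
    z ≠ a ∧ z ≠ f a ∧ d z = [] := by
  unfold eX at h
  by_cases h1 : f a = a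
  · simp only [h1, if_true] at h
    have : z ≠ a := fun e => hz (e ▸ h1)
    exact ⟨this, by rw [h1]; exact this, h⟩
  · by_cases h2 : z = a
    · simp [h1, h2] at h
    · by_cases h3 : z = f a
      · subst h3
        simp [h1] at h
      · simp only [h1, h2, h3, if_false] at h
        exact ⟨h2, h3, h⟩

section

variable {R : V → V → Prop} {cu : Λ → V → Prop} {f f' : Λ → Λ} {d : Λ → List V} {r : Bool} {b j : Λ} {m : ℕ} {P1 P2 : V}

theorem hop_emp (hi : ∀ a, f (f a) = a) (hbj : b ≠ j) (h : hop r b j f = some (f', m)) (a : Λ) (ha : f' a ≠ a)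
    (hn : hopD r b j P1 P2 f d a = []) :
    d a = [] ∧ f a ≠ a ∧ f' a = f a ∧ a ≠ b ∧ a ≠ j ∧ f a ≠ b ∧ f a ≠ j := by
  have hjb : j ≠ b := hbj.symm
  have inj : ∀ x y, f x = f y → x = y := fun x y e => by rw [← hi x, e, hi]
  have fin : ∀ z, z ≠ f b → z ≠ f j → f z ≠ b ∧ f z ≠ j := by
    intro z h1 h2
    exact ⟨fun e => h1 (by rw [← e, hi]), fun e => h2 (by rw [← e, hi])⟩
  obtain ⟨_, hc⟩ := hop_cases h
  rcases hc with ⟨hr, e⟩ | ⟨hr, h3, h4, e⟩ | ⟨hr, h3, h4, e⟩ | ⟨hr, h3, h4, e⟩ | ⟨hr, h3, h4, h5, e⟩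
  · subst hr; subst e
    unfold hopD at hn
    simp only [if_true] at hn
    unfold swD at hn
    have h1 : f (Equiv.swap b j a) ≠ Equiv.swap b j a := by
      intro e
      apply ha
      unfold cj
      rw [e, Equiv.swap_apply_self]
    obtain ⟨x1, x2, x3⟩ := eX_nil h1 hn
    obtain ⟨y1, y2, y3⟩ := eX_nil h1 x3
    have h2 : Equiv.swap b j a = a := by
      have := Equiv.swap_apply_of_ne_of_ne y1 x1
      rw [Equiv.swap_apply_self] at this
      exact this.symm
    rw [h2] at x1 x2 x3 y1 y2 y3 h1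
    obtain ⟨z1, z2⟩ := fin a y2 x2
    refine ⟨y3, h1, ?_, y1, x1, z1, z2⟩
    unfold cj
    rw [h2, Equiv.swap_apply_of_ne_of_ne z1 z2]
  · subst hr; subst e
    unfold hopD at hn
    simp only [Bool.true_eq_false, if_false, h3, h4, if_true] at hn
    unfold nwD at hn
    by_cases z1 : a = b
    · simp [z1] at hn
    by_cases z2 : a = j
    · simp [z2, hjb] at hn
    simp only [z1, z2, if_false] at hn
    have e1 : ar b j f a = f a := by unfold ar; simp [z1, z2]
    rw [e1] at ha ⊢
    obtain ⟨y1, y2⟩ := fin a (by rw [h3]; exact z1) (by rw [h4]; exact z2)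
    exact ⟨hn, ha, rfl, z1, z2, y1, y2⟩
  · subst hr; subst e
    unfold hopD at hn
    simp only [Bool.true_eq_false, if_false, h3, h4, if_true] at hn
    obtain ⟨x1, x2, x3⟩ := eX_nil ha hn
    obtain ⟨y1, y2, y3⟩ := eX_nil ha x3
    have z1 : a ≠ b := fun e => ha (e ▸ h3)
    obtain ⟨w1, w2⟩ := fin a (by rw [h3]; exact z1) x2
    exact ⟨y3, ha, rfl, z1, x1, w1, w2⟩
  · subst hr; subst e
    unfold hopD at hn
    simp only [Bool.true_eq_false, if_false, h3, h4, if_true] at hn
    obtain ⟨x1, x2, x3⟩ := eX_nil ha hn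
    obtain ⟨y1, y2, y3⟩ := eX_nil ha x3
    have z1 : a ≠ j := fun e => ha (e ▸ h4)
    obtain ⟨w1, w2⟩ := fin a x2 (by rw [h4]; exact z1)
    exact ⟨y3, ha, rfl, x1, z1, w1, w2⟩
  · subst hr; subst e
    unfold hopD at hn
    simp only [Bool.true_eq_false, if_false, h3, h4] at hn
    have z1 : a ≠ b := by
      intro e; apply ha; subst e; simp [ct]
    have z2 : a ≠ j := by
      intro e; apply ha; subst e; simp [ct, z1]
    have c1 : eX f j P2 (eX f b P1 d) j ≠ [] := by rw [eX_self _ _ _ _ h4]; simp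
    have c2 : eX f j P2 (eX f b P1 d) b ≠ [] := by
      intro e
      obtain ⟨_, _, x3⟩ := eX_nil h3 e
      rw [eX_self _ _ _ _ h3] at x3
      simp at x3
    unfold joD at hn
    simp only [z1, z2, if_false] at hn
    by_cases z3 : a = f b
    · simp only [z3, if_true] at hn
      exact absurd (List.append_eq_nil_iff.1 hn).2 c1
    by_cases z4 : a = f j
    · simp only [z3, z4, if_true, if_false] at hn
      by_cases z5 : f j = f b
      · exact absurd (inj _ _ z5) hjb
      · simp only [z5, if_false] at hn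
        exact absurd (List.append_eq_nil_iff.1 hn).2 c2
    simp only [z3, z4, if_false] at hn
    have e1 : ct b j f a = f a := by unfold ct; simp [z1, z2, z3, z4]
    rw [e1] at ha ⊢
    obtain ⟨x1, x2, x3⟩ := eX_nil ha hn
    obtain ⟨y1, y2, y3⟩ := eX_nil ha x3
    obtain ⟨w1, w2⟩ := fin a z3 z4
    exact ⟨y3, ha, rfl, z1, z2, w1, w2⟩

/-- A failure is a closed chain. -/
theorem hop_loop (hR : ∀ u v, R u v → R v u) (h : hop r b j f = none) (hd : Dec R cu f d)
    (h1 : ∀ u, (d b).head? = some u → R P1 u) (h2 : ∀ u, (d j).head? = some u → R P2 u)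
    (h12 : r = true → R P1 P2) (hj : f j ≠ j → d j = [] → f j ≠ b)
    (hn : (d j).Nodup) (m1 : P1 ∉ d j) (m2 : P2 ∉ d j) (m3 : P1 ≠ P2) : Loop R := by
  obtain ⟨hr, h3, h4, h5⟩ := hop_none h
  have h6 : f j = b := by rw [← h5, hd.inv]
  have h7 : d j ≠ [] := fun e => hj h4 e h6
  have e1 : d b = (d j).reverse := by rw [← h6, hd.rev]
  refine ⟨P2 :: (d j ++ [P1]), ?_, ?_, ?_, ?_⟩
  · rw [List.nodup_cons, List.nodup_append]
    refine ⟨?_, hn, by simp, ?_⟩
    · simp [m2, m3.symm]
    · intro x hx y hy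
      simp only [List.mem_singleton] at hy
      subst hy
      intro e
      subst e
      exact m1 hx
  · have : 1 ≤ (d j).length := List.length_pos_of_ne_nil h7
    simp
    omega
  · rw [List.isChain_cons, List.isChain_append]
    refine ⟨?_, hd.chn j, by simp, ?_⟩
    · intro y hy
      apply h2
      obtain ⟨x, t, hx⟩ := List.exists_cons_of_ne_nil h7
      rw [hx] at hy ⊢
      simpa using hy
    · intro x hx y hy
      simp only [List.head?_cons, Option.mem_def, Option.some.injEq] at hy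
      subst hy
      apply hR
      apply h1
      rw [e1, List.head?_reverse]
      exact hx
  · intro u v hu hv
    simp only [List.head?_cons, Option.some.injEq] at hu
    rw [← List.cons_append, List.getLast?_append] at hv
    simp only [List.getLast?_singleton, Option.some_or, Option.some.injEq] at hv
    subst hu; subst hv
    exact h12 hr

end

end Pool.Agent.BEX.HistD
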