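import Pool.Agent.BEX.D.HistF

/-!
# BEX, part D: lists of hops
-/

namespace Pool.Agent.BEX.HistD

variable {ι Λ V : Type*} [DecidableEq Λ]

/-- The auxiliary line: if it is used between two hops, the two vertices are related. -/
def Ok (b : Λ) (lab : ι → Λ) (r : ι → Bool) (P1 P2 : ι → V) (R : V → V → Prop) : List ι → (Λ → Λ) → Prop
  | [], _ => True
  | p :: l, f => ∀ g, hop (r p) b (lab p) f = some g →
      (g.1 b ≠ b → ∀ q, l.head? = some q → R (P1 q) (P2 p)) ∧ Ok b lab r P1 P2 R l g.1

/-- Hypotheses before a list of hops. -/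
structure HypL [Fintype Λ] [DecidableEq V] (b : Λ) (lab : ι → Λ) (r : ι → Bool) (P1 P2 : ι → V) (R : V → V → Prop)
    (cu : Λ → V → Prop) (l : List ι) (f : Λ → Λ) (d : Λ → List V) : Prop where
  dec : Dec R cu f d
  hb1 : ∀ p, l.head? = some p → ∀ u, (d b).head? = some u → R (P1 p) u
  hl1 : ∀ p ∈ l, ∀ u, f (lab p) ≠ lab p → cu (lab p) u → R (P2 p) u
  rg : ∀ p ∈ l, r p = true → R (P1 p) (P2 p)
  eb : ∀ p, l.head? = some p → f b ≠ b → d b = [] → f b ≠ lab p ∧ cu (f b) (P1 p)
  el : ∀ p ∈ l, f (lab p) ≠ lab p → d (lab p) = [] → f (lab p) ≠ b ∧ cu (f (lab p)) (P2 p)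
  ok : Ok b lab r P1 P2 R l f
  c2 : ∀ v, W (fun l : List V => l.count v) d ≤ 2
  f1 : ∀ p ∈ l, W (fun l : List V => l.count (P1 p)) d = 0
  f2 : ∀ p ∈ l, W (fun l : List V => l.count (P2 p)) d = 0

/-- Conclusions after a list of hops. -/
structure ConL [Fintype Λ] [DecidableEq V] (b : Λ) (lab : ι → Λ) (r : ι → Bool) (P1 P2 : ι → V) (R : V → V → Prop)
    (cu : Λ → V → Prop) (l : List ι) (f : Λ → Λ) (d : Λ → List V) (g : Λ → Λ) (c : ℕ) (d' : Λ → List V) : Prop where
  dec : Dec R (fun z u => (z = b → (l = [] → cu z u) ∧ ∀ p, l.getLast? = some p → u = P2 p) ∧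
    (∀ p ∈ l, z = lab p → u = P1 p) ∧ (z ≠ b → (∀ p ∈ l, z ≠ lab p) → cu z u)) g d'
  len : W (fun l : List V => l.length) d' = W (fun l : List V => l.length) d + 2 * c
  c2 : ∀ v, W (fun l : List V => l.count v) d' ≤ 2
  fr : ∀ v, (∀ p ∈ l, v ≠ P1 p ∧ v ≠ P2 p) → W (fun l : List V => l.count v) d' = W (fun l : List V => l.count v) d
  em : ∀ a, g a ≠ a → d' a = [] → d a = [] ∧ f a ≠ a ∧ g a = f a ∧
    ∀ p ∈ l, a ≠ lab p ∧ f a ≠ lab p ∧ a ≠ b ∧ f a ≠ b
  per : Per d d'
  un : ∀ z, z ≠ b → (∀ p ∈ l, z ≠ lab p) → (g z ≠ z ↔ f z ≠ z)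
  rn : ∀ p ∈ l, r p = true → ∃ a, [P1 p, P2 p] <:+: d' a ∨ [P2 p, P1 p] <:+: d' a

theorem W_zero [Fintype Λ] {φ : List V → ℕ} {d : Λ → List V} (h : W φ d = 0) (a : Λ) : φ (d a) = 0 := by
  unfold W at h
  rw [Finset.sum_eq_zero_iff] at h
  exact h a (Finset.mem_univ a)

theorem us_le (r : Bool) (f : Λ → Λ) (a : Λ) : us r f a ≤ 1 := by
  unfold us; split_ifs <;> simp

theorem hops_main [Fintype Λ] [DecidableEq V] {b : Λ} {lab : ι → Λ} {r : ι → Bool} {P1 P2 : ι → V} {R : V → V → Prop}
    (hR : ∀ u v, R u v → R v u) (hb : ∀ p, lab p ≠ b) (hlab : Function.Injective lab)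
    (hP1 : Function.Injective P1) (hP2 : Function.Injective P2) (h12 : ∀ p q, P1 p ≠ P2 q)
    (l : List ι) (hl : l.Nodup) (cu : Λ → V → Prop) (f : Λ → Λ) (d : Λ → List V)
    (H : HypL b lab r P1 P2 R cu l f d) :
    (hops b (l.map fun p => (r p, lab p)) f = none → Loop R) ∧
    ∀ g c, hops b (l.map fun p => (r p, lab p)) f = some (g, c) → ∃ d', ConL b lab r P1 P2 R cu l f d g c d' := by
  induction l generalizing cu f d with
  | nil =>
    refine ⟨by simp [hops], ?_⟩
    intro g c h
    simp only [List.map_nil, hops, Option.some.injEq, Prod.mk.injEq] at h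
    obtain ⟨rfl, rfl⟩ := h
    refine ⟨d, ?_, by simp, H.c2, fun v _ => rfl, fun a h1 h2 => ⟨h2, h1, rfl, by simp⟩, Per.refl d,
      fun _ _ _ => Iff.rfl, by simp⟩
    refine H.dec.imp (fun _ _ => id) ?_
    intro a u _ _ hu
    exact ⟨fun _ => ⟨fun _ => hu, by simp⟩, by simp, fun _ _ => hu⟩
  | cons p l ih =>
    rw [List.nodup_cons] at hl
    have hbj : b ≠ lab p := (hb p).symm
    have hcm := add_count (V := V)
    have x1 : ∀ u, (d b).head? = some u → R (P1 p) u := H.hb1 p rfl
    have x2 : ∀ u, (d (lab p)).head? = some u → R (P2 p) u := by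
      intro u hu
      refine H.hl1 p (by simp) u ?_ (H.dec.hd _ u hu)
      intro e
      rw [H.dec.emp _ e] at hu
      simp at hu
    have x3 := H.rg p (by simp)
    have x4 := H.eb p rfl
    have x5 := H.el p (by simp)
    have n1 : P1 p ∉ d (lab p) := by
      have := W_zero (H.f1 p (by simp)) (lab p)
      exact List.count_eq_zero.1 this
    have n2 : P2 p ∉ d (lab p) := by
      have := W_zero (H.f2 p (by simp)) (lab p)
      exact List.count_eq_zero.1 this
    have hnd := nodup_of H.dec H.c2
    rw [List.map_cons]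
    simp only [hops]
    rcases hop : hop (r p) b (lab p) f with _ | ⟨f', m⟩
    · refine ⟨fun _ => ?_, by simp⟩
      exact hop_loop hR hop H.dec x1 x2 x3 (fun h h' => (x5 h h').1) (hnd _) n1 n2 (h12 p p)
    · have hm := (hop_cases hop).1
      have y1 := hop_dec hR hbj hop H.dec x1 x2 x3 x4 x5
      have y2 : Per d (hopD (r p) b (lab p) (P1 p) (P2 p) f d) := hop_per hop H.dec hbj
      have y3 : ∀ φ : List V → ℕ, Add φ → W φ (hopD (r p) b (lab p) (P1 p) (P2 p) f d) =
          W φ d + 2 * (us (r p) f b * φ [P1 p] + us (r p) f (lab p) * φ [P2 p]) := fun φ hφ =>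
        hop_W hφ H.dec hbj hR x1 x2 x4 x5 hop
      have y4 := hop_emp (P1 := P1 p) (P2 := P2 p) (d := d) H.dec.inv hbj hop
      have y5 := H.ok
      simp only [Ok] at y5
      have y6 := y5 _ hop
      set d1 := hopD (r p) b (lab p) (P1 p) (P2 p) f d with hd1
      have hc2 : ∀ v, W (fun l : List V => l.count v) d1 ≤ 2 := by
        intro v
        rw [y3 _ (hcm v)]
        have u1 := us_le (r p) f b
        have u2 := us_le (r p) f (lab p)
        have h0 := H.c2 v
        simp only [List.count_singleton, beq_iff_eq]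
        by_cases e1 : P1 p = v
        · have e2 : P2 p ≠ v := fun e => h12 p p (by rw [e1, e])
          have h3 := H.f1 p (by simp)
          rw [e1] at h3
          rw [h3]
          simp only [e1, e2, if_true, if_false]
          omega
        · by_cases e2 : P2 p = v
          · have h3 := H.f2 p (by simp)
            rw [e2] at h3
            rw [h3]
            simp only [e1, e2, if_true, if_false]
            omega
          · simp only [e1, e2, if_false]
            omega
      have hfr : ∀ v, v ≠ P1 p → v ≠ P2 p → W (fun l : List V => l.count v) d1 = W (fun l : List V => l.count v) d := by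
        intro v e1 e2
        rw [y3 _ (hcm v)]
        simp [List.count_singleton, e1.symm, e2.symm]
      have hnext : HypL b lab r P1 P2 R (fun z u => if z = b then u = P2 p else if z = lab p then u = P1 p else cu z u)
          l f' d1 := by
        refine ⟨y1, ?_, ?_, ?_, ?_, ?_, y6.2, hc2, ?_, ?_⟩
        · intro q hq u hu
          have h1 := y1.hd b u hu
          simp only [if_true] at h1
          subst h1
          have h2 : f' b ≠ b := by
            intro e
            rw [y1.emp b e] at hu
            simp at hu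
          exact y6.1 h2 q hq
        · intro q hq u hu hcu
          have hqp : lab q ≠ lab p := fun e => hl.1 (hlab e ▸ hq)
          simp only [hb q, hqp, if_false] at hcu
          exact H.hl1 q (by simp [hq]) u (((hop_used H.dec.inv hbj hop).2.2 _ (hb q) hqp).1 hu) hcu
        · intro q hq
          exact H.rg q (by simp [hq])
        · intro q hq h1 h2
          exact absurd rfl (y4 b h1 h2).2.2.2.1
        · intro q hq h1 h2
          obtain ⟨z1, z2, z3, z4, z5, z6, z7⟩ := y4 _ h1 h2
          obtain ⟨w1, w2⟩ := H.el q (by simp [hq]) z2 z1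
          rw [z3]
          refine ⟨w1, ?_⟩
          simp only [z6, z7, if_false]
          exact w2
        · intro q hq
          rw [hfr]
          · exact H.f1 q (by simp [hq])
          · intro e
            exact hl.1 (hP1 e ▸ hq)
          · exact h12 q p
        · intro q hq
          rw [hfr]
          · exact H.f2 q (by simp [hq])
          · exact (h12 p q).symm
          · intro e
            exact hl.1 (hP2 e ▸ hq)
      obtain ⟨i1, i2⟩ := ih hl.2 _ f' d1 hnext
      constructor
      · intro h
        simp only [Option.bind_some, Option.map_eq_none_iff] at h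
        exact i1 h
      · intro g c h
        simp only [Option.bind_some, Option.map_eq_some_iff, Prod.mk.injEq, Prod.exists] at h
        obtain ⟨g', c', h1, h2, h3⟩ := h
        subst h2
        obtain ⟨d', hd'⟩ := i2 g' c' h1
        refine ⟨d', ?_, ?_, hd'.c2, ?_, ?_, y2.trans hd'.per, ?_, ?_⟩
        · refine hd'.dec.imp (fun _ _ => id) ?_
          rintro a u _ _ ⟨k1, k2, k3⟩
          refine ⟨?_, ?_, ?_⟩
          · intro ha
            refine ⟨by simp, ?_⟩
            intro q hq
            rcases l with _ | ⟨x, l⟩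
            · simp only [List.getLast?_singleton, Option.some.injEq] at hq
              have := (k1 ha).1 rfl
              rw [if_pos ha] at this
              rw [this, hq]
            · rw [List.getLast?_cons_cons] at hq
              exact (k1 ha).2 q hq
          · intro q hq ha
            rcases List.mem_cons.1 hq with e | hq'
            · subst e
              have h5 : a ≠ b := by rw [ha]; exact hb q
              have h6 := k3 h5 (fun x hx e => hl.1 (hlab (ha.symm.trans e) ▸ hx))
              simp only [h5, ha, if_true] at h6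
              simpa [hb q] using h6
            · exact k2 q hq' ha
          · intro ha ha'
            have h6 := k3 ha (fun x hx => ha' x (by simp [hx]))
            simp only [ha, ha' p (by simp), if_false] at h6
            exact h6
        · rw [hd'.len, y3 _ add_length, ← h3, hm]
          simp only [List.length_singleton]
          ring
        · intro v hv
          rw [hd'.fr v (fun x hx => hv x (by simp [hx])), hfr v (hv p (by simp)).1 (hv p (by simp)).2]
        · intro a ha hn
          obtain ⟨z1, z2, z3, z4⟩ := hd'.em a ha hn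
          obtain ⟨w1, w2, w3, w4, w5, w6, w7⟩ := y4 a z2 z1
          refine ⟨w1, w2, by rw [z3, w3], ?_⟩
          intro q hq
          rcases List.mem_cons.1 hq with e | hq'
          · subst e
            exact ⟨w5, w7, w4, w6⟩
          · obtain ⟨v1, v2, v3, v4⟩ := z4 q hq'
            rw [w3] at v2 v4
            exact ⟨v1, v2, v3, v4⟩
        · intro z hz hz'
          rw [hd'.un z hz (fun x hx => hz' x (by simp [hx]))]
          exact (hop_used H.dec.inv hbj hop).2.2 z hz (hz' p (by simp))
        · intro q hq hr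
          rcases List.mem_cons.1 hq with e | hq'
          · subst e
            obtain ⟨a, ha⟩ := hop_rung (P1 := P1 q) (P2 := P2 q) (d := d) hop H.dec.inv hbj hr
            obtain ⟨a', ha'⟩ := hd'.per a
            refine ⟨a', ?_⟩
            rcases ha with ha | ha
            · exact Or.inl (ha.trans ha')
            · exact Or.inr (ha.trans ha')
          · exact hd'.rn q hq' hr

end Pool.Agent.BEX.HistD
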