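import Pool.Agent.BEX.D.HistG

/-!
# BEX, part D: decorated rows
-/

namespace Pool.Agent.BEX.HistD

variable {Λ V : Type*} [DecidableEq Λ]

theorem head_fin {L : ℕ} (h : 0 < L) : (List.finRange L).head? = some ⟨0, h⟩ := by
  rw [List.head?_eq_getElem?, List.getElem?_eq_getElem (by simpa using h)]
  simp

theorem last_fin {L : ℕ} (h : 0 < L) : (List.finRange L).getLast? = some ⟨L - 1, by omega⟩ := by
  rw [List.getLast?_eq_getElem?, List.getElem?_eq_getElem (by simp; omega)]
  simp

/-- The state at the beginning of a row (auxiliary labels added). -/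
def st (q : Bool) (f : Λ → Λ) : Λ ⊕ Bool → Λ ⊕ Bool :=
  if q then ar (Sum.inr false) (Sum.inr true) (Sum.map f id) else Sum.map f id

/-- Back to the labels `Λ`. -/
def rs (h : Λ ⊕ Bool → Λ ⊕ Bool) : Λ → Λ := fun a => match h (Sum.inl a) with
  | Sum.inl b => b
  | Sum.inr _ => a

/-- The row on any set of labels. -/
def rowL {L : ℕ} (ln : Fin L → Λ) (q : Bool) (r : Fin L → Bool) (f : Λ → Λ) : Option ((Λ → Λ) × ℕ) :=
  (hops (Sum.inr true) ((List.finRange L).map (fun j => (r j, (Sum.inl (ln j) : Λ ⊕ Bool)))) (st q f)).bind fun g =>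
    (cap (Sum.inr false) (Sum.inr true) g.1).map fun h => (rs h, g.2)

theorem row_eq {L : ℕ} (q : Bool) (r : Fin L → Bool) (f : Fin L → Fin L) : row q r f = rowL id q r f := by
  unfold row rowL st
  simp only [id_eq]
  congr 1
  funext g
  congr 1
  funext h
  congr 1
  funext j
  unfold rs
  rcases h (Sum.inl j) with i | x <;> rfl

theorem st_inl (q : Bool) (f : Λ → Λ) (a : Λ) : st q f (Sum.inl a) = Sum.inl (f a) := by
  cases q <;> simp [st, ar]

theorem st_inr (f : Λ → Λ) (x : Bool) : st false f (Sum.inr x) = Sum.inr x := by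
  simp [st]

theorem st_f (f : Λ → Λ) : st true f (Sum.inr false) = Sum.inr true := by
  simp [st, ar]

theorem st_t (f : Λ → Λ) : st true f (Sum.inr true) = Sum.inr false := by
  simp [st, ar]

/-- The decoration at the beginning of a row. -/
def dst (d : Λ → List V) : Λ ⊕ Bool → List V := Sum.elim d (fun _ => [])

theorem st_dec {R : V → V → Prop} {cu : Λ → V → Prop} {f : Λ → Λ} {d : Λ → List V} (h : Dec R cu f d) (q : Bool)
    (v : V) : Dec R (fun z u => match z with
      | Sum.inl a => cu a u
      | Sum.inr x => x = false ∧ u = v) (st q f) (dst d) := by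
  refine ⟨?_, ?_, ?_, ?_, ?_⟩
  · rintro (a | x)
    · rw [st_inl, st_inl, h.inv]
    · cases q
      · rw [st_inr, st_inr]
      · cases x
        · rw [st_f, st_t]
        · rw [st_t, st_f]
  · rintro (a | x)
    · rw [st_inl]
      exact h.rev a
    · cases q
      · rw [st_inr]; simp [dst]
      · cases x
        · rw [st_f]; simp [dst]
        · rw [st_t]; simp [dst]
  · rintro (a | x) hz
    · rw [st_inl] at hz
      exact h.emp a (Sum.inl_injective hz)
    · simp [dst]
  · rintro (a | x)
    · exact h.chn a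
    · simp [dst]
  · rintro (a | x) u hu
    · exact h.hd a u hu
    · simp [dst] at hu

theorem rs_eq {h : Λ ⊕ Bool → Λ ⊕ Bool} (hi : ∀ a, h (h a) = a) (hr : ∀ x, h (Sum.inr x) = Sum.inr x) (a : Λ) :
    h (Sum.inl a) = Sum.inl (rs h a) := by
  unfold rs
  rcases e : h (Sum.inl a) with b | x
  · rfl
  · exfalso
    have := hi (Sum.inl a)
    rw [e, hr] at this
    simp at this

theorem rs_dec {R : V → V → Prop} {cu : Λ ⊕ Bool → V → Prop} {h : Λ ⊕ Bool → Λ ⊕ Bool} {D : Λ ⊕ Bool → List V}
    (hD : Dec R cu h D) (hr : ∀ x, h (Sum.inr x) = Sum.inr x) :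
    Dec R (fun z u => cu (Sum.inl z) u) (rs h) (fun a => D (Sum.inl a)) := by
  have e := rs_eq hD.inv hr
  refine ⟨?_, ?_, ?_, fun a => hD.chn _, fun a u hu => hD.hd _ u hu⟩
  · intro a
    have h1 := hD.inv (Sum.inl a)
    rw [e, e] at h1
    exact Sum.inl_injective h1
  · intro a
    have h1 := hD.rev (Sum.inl a)
    rw [e] at h1
    exact h1
  · intro a ha
    apply hD.emp
    rw [e, ha]

section

variable [Fintype Λ] [DecidableEq V] {L : ℕ}

/-- Hypotheses before a row. -/
structure HypR (hL : 0 < L) (ln : Fin L → Λ) (q : Bool) (r : Fin L → Bool) (P1 P2 : Fin L → V)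
    (R₀ R₁ : V → V → Prop) (cu : Λ → V → Prop) (f : Λ → Λ) (d : Λ → List V) : Prop where
  dec : Dec R₀ cu f d
  hl1 : ∀ j u, f (ln j) ≠ ln j → cu (ln j) u → R₀ (P2 j) u
  rg : ∀ j, r j = true → R₀ (P1 j) (P2 j)
  el : ∀ j, f (ln j) ≠ ln j → d (ln j) = [] → cu (f (ln j)) (P2 j)
  ok : Ok (Sum.inr true) (fun j => (Sum.inl (ln j) : Λ ⊕ Bool)) r P1 P2 R₀ (List.finRange L) (st q f)
  c2 : ∀ v, W (fun l : List V => l.count v) d ≤ 2
  f1 : ∀ j, W (fun l : List V => l.count (P1 j)) d = 0
  f2 : ∀ j, W (fun l : List V => l.count (P2 j)) d = 0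
  s1 : q = true → R₁ (P2 ⟨L - 1, by omega⟩) (P1 ⟨0, hL⟩)
  s0 : ¬ R₀ (P1 ⟨0, hL⟩) (P2 ⟨L - 1, by omega⟩)

/-- Conclusions after a row. -/
structure ConR (hL : 0 < L) (ln : Fin L → Λ) (q : Bool) (r : Fin L → Bool) (P1 P2 : Fin L → V)
    (R₁ : V → V → Prop) (cu : Λ → V → Prop) (f : Λ → Λ) (d : Λ → List V) (f' : Λ → Λ) (c : ℕ)
    (d' : Λ → List V) : Prop where
  dec : Dec R₁ (fun z u => (∀ j, z = ln j → u = P1 j) ∧ ((∀ j, z ≠ ln j) → cu z u)) f' d'
  len : W (fun l : List V => l.length) d' = W (fun l : List V => l.length) d + 2 * c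
  c2 : ∀ v, W (fun l : List V => l.count v) d' ≤ 2
  fr : ∀ v, (∀ j, v ≠ P1 j ∧ v ≠ P2 j) → W (fun l : List V => l.count v) d' = W (fun l : List V => l.count v) d
  em : ∀ a, f' a ≠ a → d' a = [] → d a = [] ∧ f a ≠ a ∧ f' a = f a ∧ ∀ j, a ≠ ln j ∧ f a ≠ ln j
  per : Per d d'
  rn : ∀ j, r j = true → ∃ a, [P1 j, P2 j] <:+: d' a ∨ [P2 j, P1 j] <:+: d' a
  sm : q = true → ∃ a, [P2 ⟨L - 1, by omega⟩, P1 ⟨0, hL⟩] <:+: d' a ∨ [P1 ⟨0, hL⟩, P2 ⟨L - 1, by omega⟩] <:+: d' a

omit [DecidableEq Λ] [DecidableEq V] in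
theorem W_sum {φ : List V → ℕ} (hφ : φ [] = 0) (D : Λ ⊕ Bool → List V) (h : ∀ x, D (Sum.inr x) = []) :
    W φ D = W φ (fun a => D (Sum.inl a)) := by
  unfold W
  rw [Fintype.sum_sum_type]
  simp [h, hφ]

theorem rowL_main (hL : 0 < L) {ln : Fin L → Λ} (hln : Function.Injective ln) {q : Bool} {r : Fin L → Bool}
    {P1 P2 : Fin L → V} {R₀ R₁ : V → V → Prop} (hR0 : ∀ u v, R₀ u v → R₀ v u) (hR1 : ∀ u v, R₁ u v → R₁ v u)
    (h01 : ∀ u v, R₀ u v → R₁ u v)
    (hP1 : Function.Injective P1) (hP2 : Function.Injective P2) (h12 : ∀ p q, P1 p ≠ P2 q)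
    {cu : Λ → V → Prop} {f : Λ → Λ} {d : Λ → List V} (H : HypR hL ln q r P1 P2 R₀ R₁ cu f d) :
    (rowL ln q r f = none → Loop R₁ ∨ ∃ g c,
      hops (Sum.inr true) ((List.finRange L).map (fun j => (r j, (Sum.inl (ln j) : Λ ⊕ Bool)))) (st q f) = some (g, c) ∧
      ¬ (g (Sum.inr false) = Sum.inr false ↔ g (Sum.inr true) = Sum.inr true)) ∧
    ∀ f' c, rowL ln q r f = some (f', c) → ∃ d', ConR hL ln q r P1 P2 R₁ cu f d f' c d' := by
  set p0 : Fin L := ⟨0, hL⟩ with hp0
  set p1 : Fin L := ⟨L - 1, by omega⟩ with hp1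
  set lab : Fin L → Λ ⊕ Bool := fun j => Sum.inl (ln j) with hlab
  have hW0 : ∀ φ : List V → ℕ, φ [] = 0 → W φ (dst d) = W φ d := by
    intro φ hφ
    rw [W_sum hφ _ (fun _ => rfl)]
    rfl
  have hne : List.finRange L ≠ [] := by
    intro e
    have := congrArg List.length e
    simp at this
    omega
  have hyp : HypL (Sum.inr true) lab r P1 P2 R₀ (fun z u => match z with
      | Sum.inl a => cu a u
      | Sum.inr x => x = false ∧ u = P1 p0) (List.finRange L) (st q f) (dst d) := by
    refine ⟨st_dec H.dec q (P1 p0), ?_, ?_, ?_, ?_, ?_, H.ok, ?_, ?_, ?_⟩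
    · intro p _ u hu
      simp [dst] at hu
    · intro p _ u h1 h2
      simp only [hlab, st_inl] at h1
      exact H.hl1 p u (fun e => h1 (by rw [e])) h2
    · intro p _
      exact H.rg p
    · intro p hp h1 _
      rw [head_fin hL, Option.some.injEq] at hp
      cases q
      · rw [st_inr] at h1
        exact absurd rfl h1
      · rw [st_t, ← hp]
        exact ⟨by simp [hlab], rfl, rfl⟩
    · intro p _ h1 h2
      simp only [hlab, st_inl] at h1 ⊢
      exact ⟨by simp, H.el p (fun e => h1 (by rw [e])) h2⟩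
    · intro v
      rw [hW0 _ (by simp)]
      exact H.c2 v
    · intro p _
      rw [hW0 _ (by simp)]
      exact H.f1 p
    · intro p _
      rw [hW0 _ (by simp)]
      exact H.f2 p
  have hlabi : Function.Injective lab := fun x y e => hln (Sum.inl_injective e)
  obtain ⟨m1, m2⟩ := hops_main hR0 (by simp [hlab]) hlabi hP1 hP2 h12 (List.finRange L) (List.nodup_finRange L) _ _ _ hyp
  have hLoop : Loop R₀ → Loop R₁ := by
    rintro ⟨C, c1, c2, c3, c4⟩
    exact ⟨C, c1, c2, c3.imp h01, fun u v hu hv => h01 _ _ (c4 u v hu hv)⟩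
  unfold rowL
  rcases hh : hops (Sum.inr true) ((List.finRange L).map (fun j => (r j, (Sum.inl (ln j) : Λ ⊕ Bool)))) (st q f) with
    _ | ⟨g, c⟩
  · exact ⟨fun _ => Or.inl (hLoop (m1 hh)), by simp⟩
  obtain ⟨d', D⟩ := m2 g c hh
  have ga : g (Sum.inr false) ≠ Sum.inr false ↔ q = true := by
    rw [D.un _ (by simp) (by simp [hlab])]
    cases q
    · simp [st_inr]
    · simp [st_f]
  have hda : ∀ u, (d' (Sum.inr false)).head? = some u → u = P1 p0 := by
    intro u hu
    have := (D.dec.hd _ u hu).2.2 (by simp) (by simp [hlab])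
    exact this.2
  have hdb : ∀ u, (d' (Sum.inr true)).head? = some u → u = P2 p1 := by
    intro u hu
    exact ((D.dec.hd _ u hu).1 rfl).2 _ (last_fin hL)
  have hna : g (Sum.inr false) ≠ Sum.inr false → d' (Sum.inr false) ≠ [] := by
    intro h1 h2
    obtain ⟨_, h3, _, h4⟩ := D.em _ h1 h2
    obtain ⟨_, _, _, h5⟩ := h4 p0 (List.mem_finRange _)
    cases q
    · rw [st_inr] at h3
      exact h3 rfl
    · rw [st_f] at h5
      exact h5 rfl
  have hnb : g (Sum.inr true) ≠ Sum.inr true → d' (Sum.inr true) ≠ [] := by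
    intro h1 h2
    obtain ⟨_, _, _, h4⟩ := D.em _ h1 h2
    exact (h4 p0 (List.mem_finRange _)).2.2.1 rfl
  -- the final step
  have finish : ∀ (h : Λ ⊕ Bool → Λ ⊕ Bool) (E : Λ ⊕ Bool → List V),
      Dec R₁ (fun z u => (z = Sum.inr true → (List.finRange L = [] → (match z with
          | Sum.inl a => cu a u
          | Sum.inr x => x = false ∧ u = P1 p0)) ∧ ∀ p, (List.finRange L).getLast? = some p → u = P2 p) ∧
        (∀ p ∈ List.finRange L, z = lab p → u = P1 p) ∧ (z ≠ Sum.inr true → (∀ p ∈ List.finRange L, z ≠ lab p) →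
          (match z with
          | Sum.inl a => cu a u
          | Sum.inr x => x = false ∧ u = P1 p0))) h E →
      (∀ x, h (Sum.inr x) = Sum.inr x) → (∀ φ : List V → ℕ, Add φ → W φ E = W φ d') → Per d' E →
      (∀ a, h (Sum.inl a) ≠ Sum.inl a → E (Sum.inl a) = [] → d' (Sum.inl a) = [] ∧ g (Sum.inl a) ≠ Sum.inl a ∧
        h (Sum.inl a) = g (Sum.inl a)) →
      (q = true → ∃ a, [P2 p1, P1 p0] <:+: E a ∨ [P1 p0, P2 p1] <:+: E a) →
      ConR hL ln q r P1 P2 R₁ cu f d (rs h) c (fun a => E (Sum.inl a)) := by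
    intro h E hE hr hW hper hem hsm
    have hEr : ∀ x, E (Sum.inr x) = [] := fun x => hE.emp _ (hr x)
    have hWE : ∀ φ : List V → ℕ, Add φ → W φ (fun a => E (Sum.inl a)) = W φ d' := by
      intro φ hφ
      rw [← W_sum hφ.nil E hEr, hW φ hφ]
    have hrs := rs_eq hE.inv hr
    refine ⟨?_, ?_, ?_, ?_, ?_, ?_, ?_, ?_⟩
    · refine (rs_dec hE hr).imp (fun _ _ => id) ?_
      rintro a u _ _ ⟨_, k2, k3⟩
      refine ⟨?_, ?_⟩
      · intro j hj
        exact k2 j (List.mem_finRange _) (by rw [hj])
      · intro hj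
        exact k3 (by simp) (fun p _ e => hj p (Sum.inl_injective e))
    · rw [hWE _ add_length, D.len, hW0 _ rfl]
    · intro v
      rw [hWE _ (add_count v)]
      exact D.c2 v
    · intro v hv
      rw [hWE _ (add_count v), D.fr v (fun p _ => hv p), hW0 _ (by simp)]
    · intro a ha hn
      have h1 : h (Sum.inl a) ≠ Sum.inl a := by
        rw [hrs]
        exact fun e => ha (Sum.inl_injective e)
      obtain ⟨h2, h3, h4⟩ := hem a h1 hn
      obtain ⟨k1, k2, k3, k4⟩ := D.em _ h3 h2
      rw [st_inl] at k2 k3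
      refine ⟨k1, fun e => k2 (by rw [e]), ?_, ?_⟩
      · have : (Sum.inl (rs h a) : Λ ⊕ Bool) = Sum.inl (f a) := by rw [← hrs, h4, k3]
        exact Sum.inl_injective this
      · intro j
        obtain ⟨l1, l2, _, _⟩ := k4 j (List.mem_finRange _)
        rw [st_inl] at l2
        exact ⟨fun e => l1 (by rw [e]), fun e => l2 (by rw [e])⟩
    · intro a
      obtain ⟨x, hx⟩ := (D.per.trans hper) (Sum.inl a)
      rcases x with x | x
      · exact ⟨x, hx⟩
      · rw [hEr] at hx
        refine ⟨a, ?_⟩
        have : d a = [] := List.infix_nil.1 hx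
        rw [this]
        exact List.nil_infix
    · intro j hj
      obtain ⟨a, ha⟩ := D.rn j (List.mem_finRange _) hj
      obtain ⟨x, hx⟩ := hper a
      rcases x with x | x
      · refine ⟨x, ?_⟩
        rcases ha with ha | ha
        · exact Or.inl (ha.trans hx)
        · exact Or.inr (ha.trans hx)
      · exfalso
        rw [hEr, List.infix_nil] at hx
        rw [hx] at ha
        simp at ha
    · intro hq
      obtain ⟨x, hx⟩ := hsm hq
      rcases x with x | x
      · exact ⟨x, hx⟩
      · exfalso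
        rw [hEr] at hx
        simp at hx
  constructor
  · intro h
    simp only [Option.bind_some, Option.map_eq_none_iff] at h
    unfold cap at h
    by_cases h1 : g (Sum.inr false) = Sum.inr false
    · by_cases h2 : g (Sum.inr true) = Sum.inr true
      · simp [h1, h2] at h
      · right
        exact ⟨g, c, rfl, by simp [h1, h2]⟩
    · by_cases h2 : g (Sum.inr true) = Sum.inr true
      · right
        exact ⟨g, c, rfl, by simp [h1, h2]⟩
      · by_cases h3 : g (Sum.inr false) = Sum.inr true
        · left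
          have hq := ga.1 h1
          have e1 : d' (Sum.inr true) = (d' (Sum.inr false)).reverse := by rw [← h3, D.dec.rev]
          have hnd := nodup_of D.dec D.c2 (Sum.inr false)
          have hch := D.dec.chn (Sum.inr false)
          have hn := hna h1
          have hla : ∀ v, (d' (Sum.inr false)).getLast? = some v → v = P2 p1 := by
            intro v hv
            apply hdb
            rw [e1, List.head?_reverse]
            exact hv
          refine ⟨d' (Sum.inr false), hnd, ?_, hch.imp h01, ?_⟩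
          · rcases hd : d' (Sum.inr false) with _ | ⟨x, _ | ⟨y, _ | ⟨z, t⟩⟩⟩
            · exact absurd hd hn
            · exfalso
              rw [hd] at hda hla
              have a1 := hda x rfl
              have a2 := hla x rfl
              exact h12 p0 p1 (by rw [← a1, ← a2])
            · exfalso
              rw [hd] at hda hla hch
              have a1 := hda x rfl
              have a2 := hla y rfl
              rw [a1, a2] at hch
              simp only [List.isChain_cons_cons, List.isChain_singleton, and_true] at hch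
              exact H.s0 hch
            · simp
          · intro u v hu hv
            rw [hda u hu, hla v hv]
            exact H.s1 hq
        · simp [h1, h2, h3] at h
  · intro f' c' h
    simp only [Option.bind_some, Option.map_eq_some_iff, Prod.mk.injEq] at h
    obtain ⟨h, h1, rfl, rfl⟩ := h
    unfold cap at h1
    by_cases h2 : g (Sum.inr false) = Sum.inr false
    · by_cases h3 : g (Sum.inr true) = Sum.inr true
      · simp only [h2, h3, if_true, Option.some.injEq] at h1
        subst h1
        refine ⟨_, finish g d' (D.dec.imp h01 (fun _ _ _ _ h => h)) ?_ (fun _ _ => rfl) (Per.refl _)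
          (fun a h4 h5 => ⟨h5, h4, rfl⟩) (fun hq => absurd h2 (ga.2 hq))⟩
        rintro (_ | _)
        · exact h2
        · exact h3
      · simp [h2, h3] at h1
    · by_cases h3 : g (Sum.inr true) = Sum.inr true
      · simp [h2, h3] at h1
      · by_cases h4 : g (Sum.inr false) = Sum.inr true
        · simp [h2, h3, h4] at h1
        · simp only [h2, h3, h4, if_false, Option.some.injEq] at h1
          subst h1
          have D1 := D.dec.imp h01 (fun _ _ _ _ h => h)
          have hq := ga.1 h2
          have h5 : g (Sum.inr true) ≠ Sum.inr false := fun e => h4 (by rw [← e, D.dec.inv])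
          have h6 : g (Sum.inr false) ≠ g (Sum.inr true) := by
            intro e
            have := congrArg g e
            rw [D.dec.inv, D.dec.inv] at this
            simp at this
          have J := D1.jo hR1 (Sum.inr false) (Sum.inr true) h2 h3 h4 (by simp) (hna h2) (hnb h3) (by
            intro u v hu hv
            rw [hda u hu, hdb v hv]
            exact hR1 _ _ (H.s1 hq))
          refine ⟨_, finish _ _ J ?_ ?_ ?_ ?_ ?_⟩
          · rintro (_ | _)
            · simp [ct]
            · simp [ct]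
          · intro φ hφ
            exact W_joD hφ D.dec _ _ h2 h3 h4 (by simp)
          · exact per_joD D.dec _ _ h2 h3 h4 (by simp)
          · intro a h7 h8
            unfold joD at h8
            unfold ct at h7 ⊢
            simp only [reduceCtorEq, if_false] at h7 h8 ⊢
            by_cases h9 : Sum.inl a = g (Sum.inr false)
            · simp only [h9, if_true] at h8
              exact absurd (List.append_eq_nil_iff.1 h8).2 (hnb h3)
            · by_cases h10 : Sum.inl a = g (Sum.inr true)
              · simp only [h9, h10, if_true, if_false] at h8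
                rw [if_neg h6.symm] at h8
                exact absurd (List.append_eq_nil_iff.1 h8).2 (hna h2)
              · simp only [h9, h10, if_false] at h7 h8 ⊢
                exact ⟨h8, h7, trivial⟩
          · intro _
            refine ⟨g (Sum.inr true), Or.inl ?_⟩
            unfold joD
            simp only [h3, h5, h6.symm, if_false, if_true]
            rw [D.dec.rev]
            obtain ⟨x, t, hx⟩ := List.exists_cons_of_ne_nil (hnb h3)
            obtain ⟨y, s, hy⟩ := List.exists_cons_of_ne_nil (hna h2)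
            have e1 : x = P2 p1 := hdb x (by rw [hx]; rfl)
            have e2 : y = P1 p0 := hda y (by rw [hy]; rfl)
            rw [hx, hy, e1, e2]
            exact ⟨t.reverse, s, by simp⟩

end

end Pool.Agent.BEX.HistD
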