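import Pool.Agent.BEX.D.HistD

/-!
# BEX, part D: decorated hops
-/

namespace Pool.Agent.BEX.HistD

variable {Λ V : Type*} [DecidableEq Λ]

section sums

variable [Fintype Λ] {R : V → V → Prop} {cu : Λ → V → Prop} {f : Λ → Λ} {d : Λ → List V} {φ : List V → ℕ}

theorem W_eX (hφ : Add φ) (a : Λ) (v : V) (ha : f a ≠ a) :
    W φ (eX f a v d) = W φ d + 2 * φ [v] := by
  unfold W
  have e : ∀ z, φ (eX f a v d z) = φ (d z) + ((if z = a then φ [v] else 0) + (if z = f a then φ [v] else 0)) := by
    intro z
    unfold eX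
    simp only [ha, if_false]
    by_cases h1 : z = a
    · subst h1
      have h2 : z ≠ f z := fun e => ha e.symm
      simp only [if_true, h2, if_false]
      rw [show v :: d z = [v] ++ d z from rfl, hφ.app]
      ring
    · by_cases h2 : z = f a
      · simp only [h1, if_false, h2, if_true]
        simp only [ha, if_false]
        rw [hφ.app]
        ring
      · simp [h1, h2]
  simp only [e, Finset.sum_add_distrib, Finset.sum_ite_eq', Finset.mem_univ, if_true]
  ring

theorem W_swD (a b : Λ) : W φ (swD a b d) = W φ d := by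
  unfold W swD
  exact Equiv.sum_comp (Equiv.swap a b) (fun z => φ (d z))

theorem W_joD (hφ : Add φ) (h : Dec R cu f d) (a b : Λ) (ha : f a ≠ a) (hb : f b ≠ b) (hab : f a ≠ b)
    (hne : a ≠ b) : W φ (joD f a b d) = W φ d := by
  have hba : f b ≠ a := fun e => hab (by rw [← e, h.inv])
  have hfab : f a ≠ f b := fun e => hne (by rw [← h.inv a, e, h.inv])
  unfold W
  have e : ∀ z, φ (joD f a b d z) + ((if z = a then φ (d a) else 0) + (if z = b then φ (d b) else 0)) =
      φ (d z) + ((if z = f a then φ (d b) else 0) + (if z = f b then φ (d a) else 0)) := by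
    intro z
    unfold joD
    by_cases h1 : z = a
    · subst h1
      simp [hne, ha.symm, hba.symm, hφ.nil]
    by_cases h2 : z = b
    · subst h2
      simp [hne.symm, hb.symm, hab.symm, hφ.nil]
    by_cases h3 : z = f a
    · subst h3
      simp [h1, h2, hfab, hφ.app]
    by_cases h4 : z = f b
    · subst h4
      simp [h1, h2, hfab.symm, hφ.app]
    simp [h1, h2, h3, h4]
  have e2 := Finset.sum_congr (rfl : (Finset.univ : Finset Λ) = Finset.univ) (fun z _ => e z)
  simp only [Finset.sum_add_distrib, Finset.sum_ite_eq', Finset.mem_univ, if_true] at e2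
  omega

theorem W_nwD (hφ : Add φ) (a b : Λ) (hne : a ≠ b) (l : List V) (h1 : d a = []) (h2 : d b = []) :
    W φ (nwD a b l d) = W φ d + 2 * φ l := by
  unfold W
  have e : ∀ z, φ (nwD a b l d z) = φ (d z) + ((if z = a then φ l else 0) + (if z = b then φ l else 0)) := by
    intro z
    unfold nwD
    by_cases h3 : z = a
    · subst h3
      simp [h1, hne, hφ.nil]
    by_cases h4 : z = b
    · subst h4
      simp [h2, hne.symm, hφ.nil, hφ.rev]
    simp [h3, h4]
  simp only [e, Finset.sum_add_distrib, Finset.sum_ite_eq', Finset.mem_univ, if_true]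
  ring

/-- Each list is nodup if every vertex is counted at most twice. -/
theorem nodup_of [DecidableEq V] (h : Dec R cu f d) (hc : ∀ v, W (fun l : List V => l.count v) d ≤ 2) (a : Λ) :
    (d a).Nodup := by
  rw [List.nodup_iff_count_le_one]
  intro v
  by_cases ha : f a = a
  · rw [h.emp a ha]; simp
  · have h1 : ({a, f a} : Finset Λ).sum (fun z => (d z).count v) ≤ W (fun l : List V => l.count v) d := by
      unfold W
      exact Finset.sum_le_sum_of_subset (Finset.subset_univ _)
    rw [Finset.sum_pair (fun e => ha e.symm), h.rev, List.count_reverse] at h1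
    have := hc v
    omega

end sums

/-- Every strand persists as a part of a strand. -/
def Per (d d' : Λ → List V) : Prop := ∀ a, ∃ a', d a <:+: d' a'

omit [DecidableEq Λ] in
theorem Per.refl (d : Λ → List V) : Per d d := fun a => ⟨a, List.infix_rfl⟩

omit [DecidableEq Λ] in
theorem Per.trans {d d' d'' : Λ → List V} (h : Per d d') (h' : Per d' d'') : Per d d'' := by
  intro a
  obtain ⟨b, hb⟩ := h a
  obtain ⟨c, hc⟩ := h' b
  exact ⟨c, hb.trans hc⟩

section per

variable {R : V → V → Prop} {cu : Λ → V → Prop} {f : Λ → Λ} {d : Λ → List V}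

theorem per_eX (f : Λ → Λ) (d : Λ → List V) (a : Λ) (v : V) : Per d (eX f a v d) := by
  intro z
  refine ⟨z, ?_⟩
  unfold eX
  split_ifs with h1 h2 h3
  · exact List.infix_rfl
  · subst h2
    exact (List.suffix_cons v (d z)).isInfix
  · subst h3
    exact (List.prefix_append _ _).isInfix
  · exact List.infix_rfl

theorem per_swD (d : Λ → List V) (a b : Λ) : Per d (swD a b d) := by
  intro z
  refine ⟨Equiv.swap a b z, ?_⟩
  unfold swD
  rw [Equiv.swap_apply_self]

theorem per_joD (h : Dec R cu f d) (a b : Λ) (ha : f a ≠ a) (hb : f b ≠ b) (hab : f a ≠ b)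
    (hne : a ≠ b) : Per d (joD f a b d) := by
  have hba : f b ≠ a := fun e => hab (by rw [← e, h.inv])
  have hfab : f a ≠ f b := fun e => hne (by rw [← h.inv a, e, h.inv])
  intro z
  by_cases h1 : z = a
  · subst h1
    refine ⟨f b, ?_⟩
    unfold joD
    simp only [hba, hb, hfab.symm, if_false, if_true]
    exact (List.suffix_append _ _).isInfix
  by_cases h2 : z = b
  · subst h2
    refine ⟨f a, ?_⟩
    unfold joD
    simp only [ha, hab, if_false, if_true]
    exact (List.suffix_append _ _).isInfix
  refine ⟨z, ?_⟩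
  unfold joD
  simp only [h1, h2, if_false]
  split_ifs with h3 h4
  · rw [h3]; exact (List.prefix_append _ _).isInfix
  · rw [h4]; exact (List.prefix_append _ _).isInfix
  · exact List.infix_rfl

theorem per_nwD (d : Λ → List V) (a b : Λ) (l : List V) (h1 : d a = []) (h2 : d b = []) : Per d (nwD a b l d) := by
  intro z
  refine ⟨z, ?_⟩
  unfold nwD
  split_ifs with h3 h4
  · rw [h3, h1]; exact List.nil_infix
  · rw [h4, h2]; exact List.nil_infix
  · exact List.infix_rfl

end per

/-- The decorated hop. -/
def hopD (r : Bool) (b j : Λ) (P1 P2 : V) (f : Λ → Λ) (d : Λ → List V) : Λ → List V :=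
  if r = false then swD b j (eX f j P2 (eX f b P1 d))
  else if f b = b then
    if f j = j then nwD b j [P2, P1] d else eX f j P1 (eX f j P2 d)
  else if f j = j then eX f b P2 (eX f b P1 d)
  else joD f b j (eX f j P2 (eX f b P1 d))

/-- Which of the two vertices are used. -/
def us (r : Bool) (f : Λ → Λ) (a : Λ) : ℕ := if r = false ∧ f a = a then 0 else 1

theorem hop_none {r : Bool} {b j : Λ} {f : Λ → Λ} (h : hop r b j f = none) :
    r = true ∧ f b ≠ b ∧ f j ≠ j ∧ f b = j := by
  unfold hop at h
  split_ifs at h with h1 h2 h3 h4 h5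
  exact ⟨by simpa using h1, h2, h4, h5⟩

/-- The four cases of a hop. -/
theorem hop_cases {r : Bool} {b j : Λ} {f f' : Λ → Λ} {m : ℕ} (h : hop r b j f = some (f', m)) :
    m = us r f b + us r f j ∧
    ((r = false ∧ f' = cj b j f) ∨ (r = true ∧ f b = b ∧ f j = j ∧ f' = ar b j f) ∨
     (r = true ∧ f b = b ∧ f j ≠ j ∧ f' = f) ∨ (r = true ∧ f b ≠ b ∧ f j = j ∧ f' = f) ∨
     (r = true ∧ f b ≠ b ∧ f j ≠ j ∧ f b ≠ j ∧ f' = ct b j f)) := by
  unfold hop at h
  unfold us
  cases r with
  | false =>
    simp only [if_true, Option.some.injEq, Prod.mk.injEq] at h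
    obtain ⟨h6, h7⟩ := h
    subst h6; subst h7
    simp
  | true =>
    simp only [Bool.true_eq_false, if_false] at h
    split_ifs at h with h2 h3 h4 h5
    · simp only [Option.some.injEq, Prod.mk.injEq] at h
      obtain ⟨h6, h7⟩ := h
      subst h6; subst h7
      simp [h2, h3]
    · simp only [Option.some.injEq, Prod.mk.injEq] at h
      obtain ⟨h6, h7⟩ := h
      subst h6; subst h7
      simp [h2, h3]
    · simp only [Option.some.injEq, Prod.mk.injEq] at h
      obtain ⟨h6, h7⟩ := h
      subst h6; subst h7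
      simp [h2, h4]
    · simp only [Option.some.injEq, Prod.mk.injEq] at h
      obtain ⟨h6, h7⟩ := h
      subst h6; subst h7
      simp [h2, h4, h5]

/-- The usage of the legs after a hop. -/
theorem hop_used {r : Bool} {b j : Λ} {f f' : Λ → Λ} {m : ℕ} (hi : ∀ a, f (f a) = a) (hbj : b ≠ j)
    (h : hop r b j f = some (f', m)) :
    (f' b ≠ b ↔ (if r = true then f j = j else f j ≠ j)) ∧ (f' j ≠ j ↔ (if r = true then f b = b else f b ≠ b)) ∧
      ∀ z, z ≠ b → z ≠ j → (f' z ≠ z ↔ f z ≠ z) := by
  have hjb := hbj.symm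
  have inj : ∀ x y, f x = f y → x = y := fun x y e => by rw [← hi x, e, hi]
  obtain ⟨_, hc⟩ := hop_cases h
  rcases hc with ⟨hr, e⟩ | ⟨hr, h1, h2, e⟩ | ⟨hr, h1, h2, e⟩ | ⟨hr, h1, h2, e⟩ | ⟨hr, h1, h2, h3, e⟩
  · subst hr; subst e
    unfold cj
    refine ⟨?_, ?_, ?_⟩
    · simp only [Equiv.swap_apply_left, Bool.false_eq_true, if_false]
      rw [not_iff_not, Equiv.swap_apply_eq_iff, Equiv.swap_apply_left]
    · simp only [Equiv.swap_apply_right, Bool.false_eq_true, if_false]
      rw [not_iff_not, Equiv.swap_apply_eq_iff, Equiv.swap_apply_right]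
    · intro z h3 h4
      rw [not_iff_not, Equiv.swap_apply_eq_iff, Equiv.swap_apply_of_ne_of_ne h3 h4]
  · subst hr; subst e
    unfold ar
    refine ⟨?_, ?_, ?_⟩
    · simp [h2, hjb]
    · simp [h1, hjb, hbj]
    · intro z h3 h4
      simp [h3, h4]
  · subst hr; subst e
    simp [h1, h2]
  · subst hr; subst e
    simp [h1, h2]
  · subst hr; subst e
    unfold ct
    refine ⟨?_, ?_, ?_⟩
    · simp [h2]
    · simp [h1, hjb]
    · intro z h4 h5
      have h6 : f j ≠ b := fun e => h3 (by rw [← e, hi])
      have h7 : f b ≠ f j := fun e => hbj (inj _ _ e)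
      by_cases h8 : z = f b
      · subst h8
        simp only [h1, h3, if_false, if_true]
        simp only [hi]
        exact ⟨fun _ => h1.symm, fun _ => h7.symm⟩
      · by_cases h9 : z = f j
        · subst h9
          simp only [h6, h2, h8, if_false, if_true]
          simp only [hi]
          exact ⟨fun _ => h2.symm, fun _ => h7⟩
        · simp [h4, h5, h8, h9]

end Pool.Agent.BEX.HistD
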