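import Pool.Agent.BEX.Row

/-!
# BEX, part D: the elementary operations of a row preserve involutions
-/

namespace Pool.Agent.BEX

section

variable {Λ : Type*}

/-- `f` is an involution. -/
def IV (f : Λ → Λ) : Prop := ∀ a, f (f a) = a

theorem IV.inj {f : Λ → Λ} (h : IV f) {a b : Λ} (e : f a = f b) : a = b := by
  have := congrArg f e
  rwa [h a, h b] at this

theorem IV.eq_comm {f : Λ → Λ} (h : IV f) {a b : Λ} : f a = b ↔ f b = a :=
  ⟨fun e => by rw [← e, h], fun e => by rw [← e, h]⟩

variable [DecidableEq Λ]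

theorem cj_IV {a b : Λ} {f : Λ → Λ} (h : IV f) : IV (cj a b f) := by
  intro z
  simp [cj, h (Equiv.swap a b z)]

theorem cj_cj (a b : Λ) (f : Λ → Λ) : cj a b (cj a b f) = f := by
  funext z
  simp [cj]

theorem ar_IV {a b : Λ} {f : Λ → Λ} (h : IV f) (ha : f a = a) (hb : f b = b) : IV (ar a b f) := by
  intro z
  unfold ar
  by_cases h1 : z = a
  · subst h1
    by_cases h2 : b = z
    · subst h2; simp
    · simp [h2]
  · by_cases h2 : z = b
    · subst h2; simp [h1]
    · have h3 : f z ≠ a := fun e => h1 (h.inj (e.trans ha.symm))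
      have h4 : f z ≠ b := fun e => h2 (h.inj (e.trans hb.symm))
      simp [h1, h2, h3, h4, h z]

theorem ct_IV {a b : Λ} {f : Λ → Λ} (h : IV f) (ha : f a ≠ a) (hb : f b ≠ b) : IV (ct a b f) := by
  intro z
  unfold ct
  by_cases h1 : z = a
  · subst h1; simp
  by_cases h2 : z = b
  · subst h2; simp [h1]
  by_cases h3 : z = f a
  · subst h3
    by_cases h5 : f b = a
    · exfalso; apply h2; rw [← h5, h]
    · by_cases h6 : f b = f a
      · have := h.inj h6; subst this; simp [h1, ha]
      · simp [h1, h2, h5, hb, h6]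
  by_cases h4 : z = f b
  · subst h4
    by_cases h5 : f a = b
    · exfalso; apply h1; rw [← h5, h]
    · simp [h1, h2, h3, h5, ha]
  · have h5 : f z ≠ a := fun e => h3 (by rw [← e, h])
    have h6 : f z ≠ b := fun e => h4 (by rw [← e, h])
    have h7 : f z ≠ f a := fun e => h1 (h.inj e)
    have h8 : f z ≠ f b := fun e => h2 (h.inj e)
    simp [h1, h2, h3, h4, h5, h6, h7, h8, h z]

theorem hop_false (b j : Λ) (f : Λ → Λ) :
    hop false b j f = some (cj b j f, (if f b = b then 0 else 1) + (if f j = j then 0 else 1)) := by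
  simp [hop]

theorem hop_ee {b j : Λ} {f : Λ → Λ} (h1 : f b = b) (h2 : f j = j) : hop true b j f = some (ar b j f, 2) := by
  simp [hop, h1, h2]

theorem hop_eu {b j : Λ} {f : Λ → Λ} (h1 : f b = b) (h2 : f j ≠ j) : hop true b j f = some (f, 2) := by
  simp [hop, h1, h2]

theorem hop_ue {b j : Λ} {f : Λ → Λ} (h1 : f b ≠ b) (h2 : f j = j) : hop true b j f = some (f, 2) := by
  simp [hop, h1, h2]

theorem hop_uu {b j : Λ} {f : Λ → Λ} (h1 : f b ≠ b) (h2 : f j ≠ j) (h3 : f b ≠ j) :
    hop true b j f = some (ct b j f, 2) := by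
  simp [hop, h1, h2, h3]

theorem hop_loop {b j : Λ} {f : Λ → Λ} (h1 : f b ≠ b) (h2 : f j ≠ j) (h3 : f b = j) :
    hop true b j f = none := by
  subst h3
  simp [hop, h1, h2]

theorem hop_IV {r : Bool} {b j : Λ} {f : Λ → Λ} (h : IV f) {g : (Λ → Λ) × ℕ} (e : hop r b j f = some g) :
    IV g.1 := by
  cases r
  · rw [hop_false, Option.some.injEq] at e; subst e; exact cj_IV h
  · by_cases h1 : f b = b
    · by_cases h2 : f j = j
      · rw [hop_ee h1 h2, Option.some.injEq] at e; subst e; exact ar_IV h h1 h2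
      · rw [hop_eu h1 h2, Option.some.injEq] at e; subst e; exact h
    · by_cases h2 : f j = j
      · rw [hop_ue h1 h2, Option.some.injEq] at e; subst e; exact h
      · by_cases h3 : f b = j
        · rw [hop_loop h1 h2 h3] at e; exact absurd e (by simp)
        · rw [hop_uu h1 h2 h3, Option.some.injEq] at e; subst e; exact ct_IV h h1 h2

theorem cap_IV {a b : Λ} {f g : Λ → Λ} (h : IV f) (e : cap a b f = some g) : IV g := by
  unfold cap at e
  split_ifs at e with h1 h2 h3 h4
  · simp only [Option.some.injEq] at e; subst e; exact h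
  · simp only [Option.some.injEq] at e; subst e; exact ct_IV h h1 h3

theorem cap_fix {a b : Λ} {f g : Λ → Λ} (e : cap a b f = some g) : g a = a ∧ g b = b := by
  unfold cap at e
  split_ifs at e with h1 h2 h3 h4
  · simp only [Option.some.injEq] at e; subst e; exact ⟨h1, h2⟩
  · simp only [Option.some.injEq] at e; subst e
    constructor
    · simp [ct]
    · by_cases h5 : b = a
      · subst h5; simp [ct]
      · simp [ct, h5]

theorem hops_IV {b : Λ} (l : List (Bool × Λ)) : ∀ {f : Λ → Λ}, IV f → ∀ {g : (Λ → Λ) × ℕ},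
    hops b l f = some g → IV g.1 := by
  induction l with
  | nil => intro f h g e; simp only [hops, Option.some.injEq] at e; subst e; exact h
  | cons p l ih =>
    intro f h g e
    simp only [hops, Option.bind_eq_some_iff, Option.map_eq_some_iff] at e
    obtain ⟨g1, e1, g2, e2, e3⟩ := e
    subst e3
    exact ih (g := g2) (hop_IV h e1) e2

end

section Row

variable {L : ℕ}

/-- Restriction of a matching of `Fin L ⊕ Bool` to the lines. -/
def rst (h : Fin L ⊕ Bool → Fin L ⊕ Bool) (j : Fin L) : Fin L :=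
  match h (Sum.inl j) with
  | Sum.inl i => i
  | Sum.inr _ => j

/-- The state with the seam edge used or not. -/
def cup (q : Bool) (f : Fin L → Fin L) : Fin L ⊕ Bool → Fin L ⊕ Bool :=
  if q then ar (Sum.inr false) (Sum.inr true) (Sum.map f id) else Sum.map f id

theorem row_def (q : Bool) (r : Fin L → Bool) (f : Fin L → Fin L) : row q r f =
    (hops (Sum.inr true) ((List.finRange L).map (fun j => (r j, Sum.inl j))) (cup q f)).bind fun g =>
    (cap (Sum.inr false) (Sum.inr true) g.1).map fun h => (rst h, g.2) := rfl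

theorem map_IV {f : Fin L → Fin L} (h : IV f) : IV (Sum.map f id : Fin L ⊕ Bool → Fin L ⊕ Bool) := by
  rintro (j | b)
  · simp [h j]
  · simp

theorem cup_IV {q : Bool} {f : Fin L → Fin L} (h : IV f) : IV (cup q f) := by
  unfold cup
  split_ifs
  · exact ar_IV (map_IV h) (by simp) (by simp)
  · exact map_IV h

/-- A matching which leaves both auxiliary ends empty comes from the lines. -/
theorem eq_map_rst {h : Fin L ⊕ Bool → Fin L ⊕ Bool} (hI : IV h) (h0 : h (Sum.inr false) = Sum.inr false)
    (h1 : h (Sum.inr true) = Sum.inr true) : h = Sum.map (rst h) id := by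
  funext z
  rcases z with j | (_ | _)
  · simp only [Sum.map_inl, rst]
    cases e : h (Sum.inl j) with
    | inl i => rfl
    | inr b =>
      exfalso
      have := hI (Sum.inl j)
      rw [e] at this
      cases b <;> simp [h0, h1] at this
  · simpa using h0
  · simpa using h1

theorem rst_map (f : Fin L → Fin L) : rst (Sum.map f id) = f := by
  funext j
  simp [rst]

theorem rst_IV {h : Fin L ⊕ Bool → Fin L ⊕ Bool} (hI : IV h) (h0 : h (Sum.inr false) = Sum.inr false)
    (h1 : h (Sum.inr true) = Sum.inr true) : IV (rst h) := by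
  have h2 := eq_map_rst hI h0 h1
  intro j
  have h3 := hI (Sum.inl j)
  rw [h2] at h3
  simpa using h3

theorem row_IV {q : Bool} {r : Fin L → Bool} {f : Fin L → Fin L} (h : IV f) {g : (Fin L → Fin L) × ℕ}
    (e : row q r f = some g) : IV g.1 := by
  rw [row_def] at e
  simp only [Option.bind_eq_some_iff, Option.map_eq_some_iff] at e
  obtain ⟨g1, e1, g2, e2, e3⟩ := e
  subst e3
  obtain ⟨h0, h1⟩ := cap_fix e2
  exact rst_IV (cap_IV (hops_IV _ (cup_IV h) e1) e2) h0 h1

end Row

end Pool.Agent.BEX
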