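import Pool.Agent.BEX.D.Split2
import Pool.Agent.BEX.AUnc3

/-!
# BEX, part D: every noncrossing state is reached from the empty state
-/

namespace Pool.Agent.BEX

open Pool.Agent.HHP Pool.Agent.Hhelper14.SAW

section

variable {L : ℕ}

theorem K_nn (σ τ : StL L) : 0 ≤ K L σ τ := by
  unfold K
  refine Finset.sum_nonneg fun q _ => Finset.sum_nonneg fun r _ => ?_
  cases row q r σ.1 with
  | none => exact le_rfl
  | some g =>
    simp only
    split_ifs
    · exact pow_nonneg xc_pos.le _
    · exact le_rfl

/-- One successful row gives a positive entry. -/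
theorem K_pos_of_row {σ τ : StL L} {q : Bool} {r : Fin L → Bool} {c : ℕ} (h : row q r σ.1 = some (τ.1, c)) :
    0 < K L σ τ := by
  unfold K
  have hnn : ∀ (q : Bool) (r : Fin L → Bool), 0 ≤ (match row q r σ.1 with
      | none => (0 : ℝ)
      | some g => if g.1 = τ.1 then xc ^ g.2 else 0) := by
    intro q r
    cases row q r σ.1 with
    | none => exact le_rfl
    | some g =>
      simp only
      split_ifs
      · exact pow_nonneg xc_pos.le _
      · exact le_rfl
  refine Finset.sum_pos' (fun q _ => Finset.sum_nonneg fun r _ => hnn q r) ⟨q, Finset.mem_univ _, ?_⟩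
  refine Finset.sum_pos' (fun r _ => hnn q r) ⟨r, Finset.mem_univ _, ?_⟩
  rw [h]
  simp only [if_true]
  exact pow_pos xc_pos _

/-- The state after the lines `< k`: nothing, the auxiliary line joined to the line `i`, the new arc. -/
def stg (i j : Fin L) (f : Fin L → Fin L) (k : ℕ) : Fin L ⊕ Bool → Fin L ⊕ Bool :=
  if k ≤ i then Sum.map f id
  else if k ≤ j then ar (Sum.inr true) (Sum.inl i) (Sum.map f id)
  else Sum.map (ar i j f) id

open Classical in
/-- The rungs. -/
noncomputable def rgs (i j : Fin L) (f : Fin L → Fin L) (k : Fin L) : Bool :=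
  decide (f k ≠ k ∨ (i ≤ k ∧ k < j))

theorem stg_step {i j : Fin L} {f : Fin L → Fin L} (hf : IV f) (hij : i < j) (hi : f i = i) (hj : f j = j)
    (hb : ∀ k, i < k → k < j → f k = k) (k : Fin L) :
    ∃ c, hop (rgs i j f k) (Sum.inr true) (Sum.inl k) (stg i j f k) = some (stg i j f (k + 1), c) := by
  have hI : IV (Sum.map f id : Fin L ⊕ Bool → Fin L ⊕ Bool) := map_IV hf
  have hbt : (Sum.map f id : Fin L ⊕ Bool → Fin L ⊕ Bool) (Sum.inr true) = Sum.inr true := rfl
  rcases lt_trichotomy k i with h | h | h
  · -- before i
    have e1 : stg i j f k = Sum.map f id := by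
      unfold stg; rw [if_pos (by have := h; omega)]
    have e2 : stg i j f (k + 1) = Sum.map f id := by
      unfold stg; rw [if_pos (by have := h; omega)]
    rw [e1, e2]
    by_cases hk : f k = k
    · have hr : rgs i j f k = false := by
        unfold rgs; simp [hk, not_le.2 h]
      rw [hr]
      exact ⟨0, hop_none hI hbt (by simp [hk])⟩
    · have hr : rgs i j f k = true := by
        unfold rgs; simp [hk]
      rw [hr]
      exact ⟨2, hop_eu hbt (by simp [hk])⟩
  · subst h
    have e1 : stg k j f k = Sum.map f id := by
      unfold stg; rw [if_pos le_rfl]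
    have e2 : stg k j f (k + 1) = ar (Sum.inr true) (Sum.inl k) (Sum.map f id) := by
      unfold stg; rw [if_neg (by omega), if_pos (by have := hij; omega)]
    have hr : rgs k j f k = true := by
      unfold rgs; simp [hij]
    rw [e1, e2, hr]
    exact ⟨2, hop_ee hbt (by simp [hi])⟩
  · rcases lt_trichotomy k j with h' | h' | h'
    · have e1 : stg i j f k = ar (Sum.inr true) (Sum.inl i) (Sum.map f id) := by
        unfold stg; rw [if_neg (by have := h; omega), if_pos (by have := h'; omega)]
      have e2 : stg i j f (k + 1) = ar (Sum.inr true) (Sum.inl i) (Sum.map f id) := by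
        unfold stg; rw [if_neg (by have := h; omega), if_pos (by have := h'; omega)]
      have hr : rgs i j f k = true := by
        unfold rgs; simp [h.le, h']
      rw [e1, e2, hr]
      refine ⟨2, hop_ue (by simp [ar]) ?_⟩
      simp [ar, h.ne', hb k h h']
    · subst h'
      have e1 : stg i k f k = ar (Sum.inr true) (Sum.inl i) (Sum.map f id) := by
        unfold stg; rw [if_neg (by have := h; omega), if_pos le_rfl]
      have e2 : stg i k f (k + 1) = Sum.map (ar i k f) id := by
        unfold stg; rw [if_neg (by have := h; omega), if_neg (by omega)]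
      have hr : rgs i k f k = false := by
        unfold rgs; simp [hj]
      rw [e1, e2, hr, hop_false]
      refine ⟨(if ar (Sum.inr true) (Sum.inl i) (Sum.map f id) (Sum.inr true) = (Sum.inr true : Fin L ⊕ Bool) then 0 else 1) +
        (if ar (Sum.inr true) (Sum.inl i) (Sum.map f id) (Sum.inl k) = (Sum.inl k : Fin L ⊕ Bool) then 0 else 1), ?_⟩
      · congr 2
        funext z
        unfold cj
        rcases z with z | (_ | _)
        · by_cases z1 : z = k
          · subst z1
            simp [ar, h.ne', h.ne]
            rw [Equiv.swap_apply_of_ne_of_ne (by simp) (by simp [h.ne])]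
          · have : Equiv.swap (Sum.inr true : Fin L ⊕ Bool) (Sum.inl k) (Sum.inl z) = Sum.inl z :=
              Equiv.swap_apply_of_ne_of_ne (by simp) (by simp [z1])
            rw [this]
            by_cases z2 : z = i
            · subst z2
              simp [ar]
            · have h3 : f z ≠ k := fun e => z1 (by rw [← hf z, e, hj])
              simp [ar, z2, z1]
              rw [Equiv.swap_apply_of_ne_of_ne (by simp) (by simp [h3])]
        · have : Equiv.swap (Sum.inr true : Fin L ⊕ Bool) (Sum.inl k) (Sum.inr false) = Sum.inr false :=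
            Equiv.swap_apply_of_ne_of_ne (by simp) (by simp)
          rw [this]
          simp [ar, this]
        · simp [ar, h.ne', hj]
    · have e1 : stg i j f k = Sum.map (ar i j f) id := by
        unfold stg; rw [if_neg (by have := h; omega), if_neg (by have := h'; omega)]
      have e2 : stg i j f (k + 1) = Sum.map (ar i j f) id := by
        unfold stg; rw [if_neg (by have := h; omega), if_neg (by have := h'; omega)]
      have ha : ar i j f k = f k := by simp [ar, h.ne', h'.ne']
      have hI' : IV (Sum.map (ar i j f) id : Fin L ⊕ Bool → Fin L ⊕ Bool) := map_IV (ar_IV hf hi hj)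
      rw [e1, e2]
      by_cases hk : f k = k
      · have hr : rgs i j f k = false := by
          unfold rgs; simp [hk, h'.le]
        rw [hr]
        exact ⟨0, hop_none hI' rfl (by simp [ha, hk])⟩
      · have hr : rgs i j f k = true := by
          unfold rgs; simp [hk]
        rw [hr]
        exact ⟨2, hop_eu rfl (by simp [ha, hk])⟩

theorem stg_hops {i j : Fin L} {f : Fin L → Fin L} (hf : IV f) (hij : i < j) (hi : f i = i) (hj : f j = j)
    (hb : ∀ k, i < k → k < j → f k = k) : ∀ (n k : ℕ), k + n = L →
    ∃ c, hops (Sum.inr true) (((List.finRange L).drop k).map (fun m => (rgs i j f m, Sum.inl m))) (stg i j f k) =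
      some (stg i j f L, c) := by
  intro n
  induction n with
  | zero =>
    intro k hk
    have : k = L := by omega
    subst this
    refine ⟨0, ?_⟩
    rw [List.drop_of_length_le (by simp)]
    simp [hops]
  | succ n ih =>
    intro k hk
    have hkL : k < L := by omega
    have hl : k < (List.finRange L).length := by simpa using hkL
    rw [List.drop_eq_getElem_cons hl]
    obtain ⟨c2, h2⟩ := ih (k + 1) (by omega)
    obtain ⟨c1, h1⟩ := stg_step hf hij hi hj hb ⟨k, hkL⟩
    have hg : (List.finRange L)[k] = ⟨k, hkL⟩ := by simp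
    rw [hg]
    refine ⟨c1 + c2, ?_⟩
    simp only [List.map_cons, hops]
    simp only at h1
    rw [h1]
    simp only [Option.bind_some]
    rw [h2]
    simp

/-- One row adds an innermost arc. -/
theorem row_add {i j : Fin L} {f : Fin L → Fin L} (hf : IV f) (hij : i < j) (hi : f i = i) (hj : f j = j)
    (hb : ∀ k, i < k → k < j → f k = k) : ∃ c, row false (rgs i j f) f = some (ar i j f, c) := by
  obtain ⟨c, h⟩ := stg_hops hf hij hi hj hb L 0 (by omega)
  refine ⟨c, ?_⟩
  rw [row_def]
  have e1 : cup false f = stg i j f 0 := by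
    unfold stg; rw [if_pos (Nat.zero_le _)]; simp [cup]
  have e2 : stg i j f L = Sum.map (ar i j f) id := by
    unfold stg; rw [if_neg (by have := i.2; omega), if_neg (by have := j.2; omega)]
  rw [e1]
  rw [List.drop_zero, e2] at h
  rw [h]
  simp [cap, rst_map]

theorem rmv_supp {i j : Fin L} {f : Fin L → Fin L} (hi : f i ≠ i) :
    (Finset.univ.filter fun z => rmv i j f z ≠ z).card < (Finset.univ.filter fun z => f z ≠ z).card := by
  apply Finset.card_lt_card
  rw [Finset.ssubset_iff_of_subset]
  · exact ⟨i, by simp [hi], by simp [rmv]⟩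
  · intro z hz
    simp only [Finset.mem_filter, Finset.mem_univ, true_and] at hz ⊢
    intro h
    apply hz
    unfold rmv
    by_cases h1 : z = i
    · simp [h1]
    · by_cases h2 : z = j
      · subst h2; simp [h1]
      · simp [h1, h2, h]

theorem rmv_fix {i j : Fin L} {f : Fin L → Fin L} {z : Fin L} (h : f z = z) : rmv i j f z = z := by
  unfold rmv
  by_cases h1 : z = i
  · simp [h1]
  · by_cases h2 : z = j
    · subst h2; simp [h1]
    · simp [h1, h2, h]

theorem rmv_eq {i j : Fin L} {f : Fin L → Fin L} {z : Fin L} (h : rmv i j f z ≠ z) : rmv i j f z = f z := by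
  unfold rmv at h ⊢
  by_cases h1 : z = i
  · simp [h1] at h
  · by_cases h2 : z = j
    · subst h2; simp [h1] at h
    · simp [h1, h2]

theorem em_iff {σ : StL L} : σ = em L ↔ ∀ i, σ.1 i = i := by
  constructor
  · rintro rfl i; rfl
  · intro h; exact Subtype.ext (funext h)

theorem K_pow_nn (n : ℕ) (σ τ : StL L) : 0 ≤ (K L ^ n) σ τ := by
  induction n generalizing σ τ with
  | zero =>
    simp only [pow_zero, Matrix.one_apply]
    split_ifs
    · exact zero_le_one
    · exact le_rfl
  | succ n ih =>
    rw [pow_succ, Matrix.mul_apply]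
    exact Finset.sum_nonneg fun k _ => mul_nonneg (ih _ _) (K_nn _ _)

/-- Every noncrossing state is reached from the empty state. -/
theorem reach (n : ℕ) : ∀ σ : StL L, (Finset.univ.filter fun z => σ.1 z ≠ z).card ≤ n →
    Unc.NCr (fun i : Fin L => (i : ℕ)) σ → ∃ m : ℕ, 0 < (K L ^ m) (em L) σ := by
  induction n with
  | zero =>
    intro σ h _
    have : σ = em L := by
      rw [em_iff]
      intro i
      by_contra hi
      have h1 : (Finset.univ.filter fun z => σ.1 z ≠ z) = ∅ := Finset.card_eq_zero.1 (by omega)
      have h2 : i ∈ (Finset.univ.filter fun z => σ.1 z ≠ z) := by simp [hi]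
      rw [h1] at h2
      exact absurd h2 (Finset.notMem_empty _)
    subst this
    exact ⟨0, by simp⟩
  | succ n ih =>
    intro σ h hc
    by_cases hem : σ = em L
    · subst hem
      exact ⟨0, by simp⟩
    · have hσ : IV σ.1 := σ.2
      -- an innermost arc
      have hex : ∃ d : ℕ, ∃ i j : Fin L, i < j ∧ σ.1 i = j ∧ (j : ℕ) - i = d := by
        rw [em_iff] at hem
        push Not at hem
        obtain ⟨i, hi⟩ := hem
        rcases lt_or_gt_of_ne hi with h1 | h1
        · exact ⟨_, σ.1 i, i, h1, hσ i, rfl⟩
        · exact ⟨_, i, σ.1 i, h1, rfl, rfl⟩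
      classical
      obtain ⟨i, j, hij, hij', hd⟩ := Nat.find_spec hex
      have hmin : ∀ i' j' : Fin L, i' < j' → σ.1 i' = j' → (j : ℕ) - i ≤ (j' : ℕ) - i' := by
        intro i' j' h1 h2
        rw [hd]
        exact Nat.find_min' hex ⟨i', j', h1, h2, rfl⟩
      have hji : σ.1 j = i := by rw [← hij', hσ]
      have hb : ∀ k, i < k → k < j → σ.1 k = k := by
        intro k h1 h2
        by_contra hk
        have hki : σ.1 k ≠ i := fun e => h2.ne (by rw [← hσ k, e, hij'])
        have hkj : σ.1 k ≠ j := fun e => h1.ne' (by rw [← hσ k, e, hji])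
        rcases lt_or_gt_of_ne hki with h3 | h3
        · -- partner left of i
          apply hc (σ.1 k) i
          · exact h3
          · show (i : ℕ) < (σ.1 (σ.1 k) : Fin L)
            rw [hσ k]; exact h1
          · show ((σ.1 (σ.1 k) : Fin L) : ℕ) < (σ.1 i : Fin L)
            rw [hσ k, hij']; exact h2
        · rcases lt_or_gt_of_ne hkj with h4 | h4
          · rcases lt_or_gt_of_ne hk with h5 | h5
            · have := hmin (σ.1 k) k h5 (hσ k)
              omega
            · have := hmin k (σ.1 k) h5 rfl
              omega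
          · apply hc i k
            · exact h1
            · show (k : ℕ) < (σ.1 i : Fin L)
              rw [hij']; exact h2
            · show ((σ.1 i : Fin L) : ℕ) < (σ.1 k : Fin L)
              rw [hij']; exact h4
      have hI : IV (rmv i j σ.1) := rmv_IV hσ hij'
      set ρ : StL L := ⟨rmv i j σ.1, hI⟩ with hρ
      have hρc : (Finset.univ.filter fun z => ρ.1 z ≠ z).card ≤ n := by
        have h5 : (Finset.univ.filter fun z => ρ.1 z ≠ z).card < (Finset.univ.filter fun z => σ.1 z ≠ z).card :=
          rmv_supp (i := i) (j := j) (f := σ.1) (by rw [hij']; exact hij.ne')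
        omega
      have hρn : Unc.NCr (fun i : Fin L => (i : ℕ)) ρ := by
        intro a b h1 h2 h3
        have ha : ρ.1 a ≠ a := by
          intro e
          have h2' : (b : ℕ) < (ρ.1 a : Fin L) := h2
          rw [e] at h2'
          exact absurd h1 (not_lt.2 h2'.le)
        have hb : ρ.1 b ≠ b := by
          intro e
          have h3' : ((ρ.1 a : Fin L) : ℕ) < (ρ.1 b : Fin L) := h3
          rw [e] at h3'
          exact absurd h2 (not_lt.2 h3'.le)
        have ea : ρ.1 a = σ.1 a := rmv_eq ha
        have eb : ρ.1 b = σ.1 b := rmv_eq hb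
        have h2' : (b : ℕ) < (ρ.1 a : Fin L) := h2
        have h3' : ((ρ.1 a : Fin L) : ℕ) < (ρ.1 b : Fin L) := h3
        rw [ea] at h2' h3'
        rw [eb] at h3'
        exact hc a b h1 h2' h3'
      obtain ⟨m, hm⟩ := ih ρ hρc hρn
      obtain ⟨c, hrow⟩ := row_add (i := i) (j := j) (f := rmv i j σ.1) hI hij (by simp [rmv])
        (by simp [rmv, hij.ne']) (fun k h1 h2 => rmv_fix (hb k h1 h2))
      rw [ar_rmv hσ hij'] at hrow
      have hK : 0 < K L ρ σ := K_pos_of_row (σ := ρ) (τ := σ) hrow
      refine ⟨m + 1, ?_⟩
      rw [pow_succ, Matrix.mul_apply]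
      refine lt_of_lt_of_le (mul_pos hm hK) ?_
      exact Finset.single_le_sum (f := fun k => (K L ^ m) (em L) k * K L k σ)
        (fun k _ => mul_nonneg (K_pow_nn _ _ _) (K_nn _ _)) (Finset.mem_univ ρ)

end

end Pool.Agent.BEX
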