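import Pool.Agent.BEX.D.Inv

/-!
# BEX, part D: a history whose result is a disjoint union splits into two histories
-/

namespace Pool.Agent.BEX

section

variable {Λ : Type*}

/-- `g` is the disjoint union of the matchings `g1`, `g2`. -/
def Spl (g g1 g2 : Λ → Λ) : Prop := ∀ z, (g z = g1 z ∧ g2 z = z) ∨ (g z = g2 z ∧ g1 z = z)

theorem Spl.symm {g g1 g2 : Λ → Λ} (h : Spl g g1 g2) : Spl g g2 g1 := fun z => (h z).symm

theorem Spl.emp {g g1 g2 : Λ → Λ} (h : Spl g g1 g2) {z : Λ} (e : g z = z) : g1 z = z ∧ g2 z = z := by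
  rcases h z with ⟨h1, h2⟩ | ⟨h1, h2⟩
  · exact ⟨h1 ▸ e, h2⟩
  · exact ⟨h2, h1 ▸ e⟩

/-- An arc which belongs to the first part. -/
theorem Spl.arc {g g1 g2 : Λ → Λ} (h : Spl g g1 g2) (h1 : IV g1) {z w : Λ} (e : g z = w)
    (hz : g2 z = z) (hzw : z ≠ w) : g1 z = w ∧ g1 w = z ∧ g2 w = w := by
  have h3 : g1 z = w := by
    rcases h z with ⟨h3, _⟩ | ⟨h3, _⟩
    · rw [← h3, e]
    · rw [hz] at h3; exact absurd (h3.symm.trans e) hzw
  have h4 : g1 w = z := by rw [← h3, h1]
  refine ⟨h3, h4, ?_⟩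
  rcases h w with ⟨_, h5⟩ | ⟨_, h5⟩
  · exact h5
  · exact absurd (h5.symm.trans h4).symm hzw

variable [DecidableEq Λ]

/-- Removal of the arc `b - j`. -/
def rmv (b j : Λ) (f : Λ → Λ) : Λ → Λ := fun z => if z = b then b else if z = j then j else f z

/-- The arc `p - q` is cut and its ends are joined to `b` and `j`. -/
def cut (b p j q : Λ) (f : Λ → Λ) : Λ → Λ := fun z =>
  if z = b then p else if z = p then b else if z = j then q else if z = q then j else f z

theorem rmv_IV {b j : Λ} {g : Λ → Λ} (h : IV g) (e : g b = j) : IV (rmv b j g) := by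
  intro z
  unfold rmv
  by_cases h1 : z = b
  · subst h1; simp
  · by_cases h2 : z = j
    · subst h2; simp [h1]
    · have h3 : g z ≠ b := fun h3 => h2 (by rw [← e, ← h3, h])
      have h4 : g z ≠ j := fun h4 => h1 (h.inj (h4.trans e.symm))
      simp [h1, h2, h3, h4, h z]

theorem ar_rmv {b j : Λ} {g : Λ → Λ} (h : IV g) (e : g b = j) : ar b j (rmv b j g) = g := by
  funext z
  unfold ar rmv
  by_cases h1 : z = b
  · subst h1; simp [e]
  · by_cases h2 : z = j
    · subst h2; simp [h1, ← e, h b]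
    · simp [h1, h2]

theorem cut_IV {b p j q : Λ} {g : Λ → Λ} (h : IV g) (hb : g b = b) (hj : g j = j) (hp : g p = q)
    (hpq : p ≠ q) (hbj : b ≠ j) : IV (cut b p j q g) := by
  have hq : g q = p := by rw [← hp, h]
  have h1 : p ≠ b := by rintro rfl; exact hpq (hb.symm.trans hp)
  have h2 : p ≠ j := by rintro rfl; exact hpq (hj.symm.trans hp)
  have h3 : q ≠ b := by rintro rfl; exact hpq (hq.symm.trans hb)
  have h4 : q ≠ j := by rintro rfl; exact hpq (hq.symm.trans hj)
  intro z
  unfold cut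
  by_cases c1 : z = b
  · subst c1; simp [h1]
  by_cases c2 : z = p
  · subst c2; simp [h1]
  by_cases c3 : z = j
  · subst c3; simp [c1, c2, h3, h4, hpq.symm]
  by_cases c4 : z = q
  · subst c4; simp [c1, c2, c3, hbj.symm, h2.symm]
  have d1 : g z ≠ b := fun e => c1 (by rw [← h z, e, hb])
  have d2 : g z ≠ p := fun e => c4 (by rw [← h z, e, hp])
  have d3 : g z ≠ j := fun e => c3 (by rw [← h z, e, hj])
  have d4 : g z ≠ q := fun e => c2 (by rw [← h z, e, hq])
  simp [c1, c2, c3, c4, d1, d2, d3, d4, h z]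

theorem ct_cut {b p j q : Λ} {g : Λ → Λ} (h : IV g) (hb : g b = b) (hj : g j = j) (hp : g p = q)
    (hpq : p ≠ q) (hbj : b ≠ j) : ct b j (cut b p j q g) = g := by
  have hq : g q = p := by rw [← hp, h]
  have h1 : p ≠ b := by rintro rfl; exact hpq (hb.symm.trans hp)
  have h2 : p ≠ j := by rintro rfl; exact hpq (hj.symm.trans hp)
  have h3 : q ≠ b := by rintro rfl; exact hpq (hq.symm.trans hb)
  have h4 : q ≠ j := by rintro rfl; exact hpq (hq.symm.trans hj)
  have e1 : cut b p j q g b = p := by simp [cut]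
  have e2 : cut b p j q g j = q := by simp [cut, hbj.symm, h2.symm]
  funext z
  unfold ct
  rw [e1, e2]
  by_cases c1 : z = b
  · subst c1; simp [hb]
  by_cases c3 : z = j
  · subst c3; simp [c1, hj]
  by_cases c2 : z = p
  · subst c2; simp [c1, c3, hp]
  by_cases c4 : z = q
  · subst c4; simp [c1, c2, c3, hq]
  simp [c1, c2, c3, c4, cut]

theorem Spl.cj {g g1 g2 : Λ → Λ} (h : Spl g g1 g2) (b j : Λ) :
    Spl (cj b j g) (BEX.cj b j g1) (BEX.cj b j g2) := by
  intro z
  simp only [BEX.cj]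
  rcases h (Equiv.swap b j z) with ⟨h1, h2⟩ | ⟨h1, h2⟩
  · left; rw [h1, h2]; simp
  · right; rw [h1, h2]; simp

/-- Number of the used ones. -/
theorem Spl.cnt {g g1 g2 : Λ → Λ} (h : Spl g g1 g2) (z : Λ) : (if g z = z then 0 else 1) =
    (if g1 z = z then 0 else 1) + (if g2 z = z then 0 else 1) := by
  rcases h z with ⟨h1, h2⟩ | ⟨h1, h2⟩
  · rw [h1, if_pos h2, add_zero]
  · rw [h1, if_pos h2, zero_add]

theorem cj_empty {b j : Λ} {f : Λ → Λ} (hI : IV f) (h1 : f b = b) (h2 : f j = j) : cj b j f = f := by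
  funext z
  unfold cj
  by_cases c1 : z = b
  · subst c1; simp [h1, h2]
  by_cases c2 : z = j
  · subst c2; simp [h1, h2]
  rw [Equiv.swap_apply_of_ne_of_ne c1 c2, Equiv.swap_apply_of_ne_of_ne]
  · intro e; exact c1 (by rw [← hI z, e, h1])
  · intro e; exact c2 (by rw [← hI z, e, h2])

theorem hop_none {b j : Λ} {f : Λ → Λ} (hI : IV f) (h1 : f b = b) (h2 : f j = j) :
    hop false b j f = some (f, 0) := by
  rw [hop_false, if_pos h1, if_pos h2, cj_empty hI h1 h2]

/-- Splitting one crossing. -/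
theorem hop_split {r : Bool} {b j : Λ} {f g g1 g2 : Λ → Λ} {c : ℕ} (hbj : b ≠ j) (hf : IV f)
    (e : hop r b j f = some (g, c)) (hs : Spl g g1 g2) (h1 : IV g1) (h2 : IV g2) :
    ∃ (r1 r2 : Bool) (f1 f2 : Λ → Λ) (c1 c2 : ℕ), Spl f f1 f2 ∧ IV f1 ∧ IV f2 ∧
      hop r1 b j f1 = some (g1, c1) ∧ hop r2 b j f2 = some (g2, c2) ∧ r = (r1 || r2) ∧ c = c1 + c2 := by
  cases r
  · rw [hop_false, Option.some.injEq, Prod.mk.injEq] at e
    obtain ⟨rfl, rfl⟩ := e
    have hs' : Spl f (cj b j g1) (cj b j g2) := by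
      have := hs.cj b j
      rwa [cj_cj] at this
    refine ⟨false, false, cj b j g1, cj b j g2,
      (if cj b j g1 b = b then 0 else 1) + (if cj b j g1 j = j then 0 else 1),
      (if cj b j g2 b = b then 0 else 1) + (if cj b j g2 j = j then 0 else 1),
      hs', cj_IV h1, cj_IV h2, ?_, ?_, rfl, ?_⟩
    · rw [hop_false, cj_cj]
    · rw [hop_false, cj_cj]
    · have e1 := hs'.cnt b
      have e2 := hs'.cnt j
      omega
  · by_cases hb : f b = b
    · by_cases hj : f j = j
      · rw [hop_ee hb hj, Option.some.injEq, Prod.mk.injEq] at e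
        obtain ⟨rfl, rfl⟩ := e
        have hgb : ar b j f b = j := by simp [ar]
        -- the new arc belongs to one of the parts
        have key : ∀ k1 k2 : Λ → Λ, Spl (ar b j f) k1 k2 → IV k1 → IV k2 → k2 b = b →
            Spl f (rmv b j k1) k2 ∧ IV (rmv b j k1) ∧ hop true b j (rmv b j k1) = some (k1, 2) ∧
              hop false b j k2 = some (k2, 0) := by
          intro k1 k2 hk i1 i2 h0
          obtain ⟨a1, a2, a3⟩ := hk.arc i1 hgb h0 hbj
          refine ⟨?_, rmv_IV i1 a1, ?_, hop_none i2 h0 a3⟩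
          · intro z
            by_cases c1 : z = b
            · subst c1; left; simp [rmv, hb, h0]
            · by_cases c2 : z = j
              · subst c2; left; simp [rmv, hj, a3]
              · have := hk z
                simpa [rmv, ar, c1, c2] using this
          · have d1 : rmv b j k1 b = b := by simp [rmv]
            have d2 : rmv b j k1 j = j := by simp [rmv, hbj.symm]
            rw [hop_ee d1 d2, ar_rmv i1 a1]
        rcases hs b with ⟨_, h0⟩ | ⟨_, h0⟩
        · obtain ⟨k1, k2, k3, k4⟩ := key g1 g2 hs h1 h2 h0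
          exact ⟨true, false, rmv b j g1, g2, 2, 0, k1, k2, h2, k3, k4, rfl, rfl⟩
        · obtain ⟨k1, k2, k3, k4⟩ := key g2 g1 hs.symm h2 h1 h0
          exact ⟨false, true, g1, rmv b j g2, 0, 2, k1.symm, h1, k2, k4, k3, rfl, rfl⟩
      · rw [hop_eu hb hj, Option.some.injEq, Prod.mk.injEq] at e
        obtain ⟨rfl, rfl⟩ := e
        obtain ⟨b1, b2⟩ := hs.emp hb
        rcases hs j with ⟨h3, h0⟩ | ⟨h3, h0⟩
        · exact ⟨true, false, g1, g2, 2, 0, hs, h1, h2, hop_eu b1 (h3 ▸ hj), hop_none h2 b2 h0, rfl, rfl⟩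
        · exact ⟨false, true, g1, g2, 0, 2, hs, h1, h2, hop_none h1 b1 h0, hop_eu b2 (h3 ▸ hj), rfl, rfl⟩
    · by_cases hj : f j = j
      · rw [hop_ue hb hj, Option.some.injEq, Prod.mk.injEq] at e
        obtain ⟨rfl, rfl⟩ := e
        obtain ⟨b1, b2⟩ := hs.emp hj
        rcases hs b with ⟨h3, h0⟩ | ⟨h3, h0⟩
        · exact ⟨true, false, g1, g2, 2, 0, hs, h1, h2, hop_ue (h3 ▸ hb) b1, hop_none h2 h0 b2, rfl, rfl⟩
        · exact ⟨false, true, g1, g2, 0, 2, hs, h1, h2, hop_none h1 h0 b1, hop_ue (h3 ▸ hb) b2, rfl, rfl⟩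
      · by_cases hl : f b = j
        · rw [hop_loop hb hj hl] at e; exact absurd e (by simp)
        · rw [hop_uu hb hj hl, Option.some.injEq, Prod.mk.injEq] at e
          obtain ⟨rfl, rfl⟩ := e
          have hpq : f b ≠ f j := fun e => hbj (hf.inj e)
          have hjb : f j ≠ b := fun e => hl (by rw [← e, hf])
          have gb : ct b j f b = b := by simp [ct]
          have gj : ct b j f j = j := by simp [ct, hbj.symm]
          have gp : ct b j f (f b) = f j := by simp [ct, hb, hl]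
          have gq : ct b j f (f j) = f b := by simp [ct, hjb, hj, hpq.symm]
          obtain ⟨b1, b2⟩ := hs.emp gb
          obtain ⟨j1, j2⟩ := hs.emp gj
          have key : ∀ k1 k2 : Λ → Λ, Spl (ct b j f) k1 k2 → IV k1 → IV k2 → k1 b = b → k2 b = b →
              k1 j = j → k2 j = j → k2 (f b) = f b →
              Spl f (cut b (f b) j (f j) k1) k2 ∧ IV (cut b (f b) j (f j) k1) ∧
                hop true b j (cut b (f b) j (f j) k1) = some (k1, 2) ∧ hop false b j k2 = some (k2, 0) := by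
            intro k1 k2 hk i1 i2 kb1 kb2 kj1 kj2 h0
            obtain ⟨a1, a2, a3⟩ := hk.arc i1 gp h0 hpq
            refine ⟨?_, cut_IV i1 kb1 kj1 a1 hpq hbj, ?_, hop_none i2 kb2 kj2⟩
            · intro z
              by_cases c1 : z = b
              · subst c1; left; simp [cut, kb2]
              by_cases c2 : z = f b
              · subst c2; left; simp [cut, hb, hf b, h0]
              by_cases c3 : z = j
              · subst c3; left; simp [cut, c1, c2, kj2]
              by_cases c4 : z = f j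
              · subst c4; left; simp [cut, c1, c2, c3, hf j, a3]
              have := hk z
              simpa [cut, ct, c1, c2, c3, c4] using this
            · have d1 : cut b (f b) j (f j) k1 b = f b := by simp [cut]
              have d2 : cut b (f b) j (f j) k1 j = f j := by simp [cut, hbj.symm, Ne.symm hl]
              rw [hop_uu (by rw [d1]; exact hb) (by rw [d2]; exact hj) (by rw [d1]; exact hl),
                ct_cut i1 kb1 kj1 a1 hpq hbj]
          rcases hs (f b) with ⟨_, h0⟩ | ⟨_, h0⟩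
          · obtain ⟨k1, k2, k3, k4⟩ := key g1 g2 hs h1 h2 b1 b2 j1 j2 h0
            exact ⟨true, false, _, g2, 2, 0, k1, k2, h2, k3, k4, rfl, rfl⟩
          · obtain ⟨k1, k2, k3, k4⟩ := key g2 g1 hs.symm h2 h1 b2 b1 j2 j1 h0
            exact ⟨false, true, g1, _, 0, 2, k1.symm, h1, k2, k4, k3, rfl, rfl⟩

/-- Splitting the cap. -/
theorem cap_split {a b : Λ} {f g g1 g2 : Λ → Λ} (hab : a ≠ b) (hf : IV f)
    (e : cap a b f = some g) (hs : Spl g g1 g2) (h1 : IV g1) (h2 : IV g2) :
    ∃ (f1 f2 : Λ → Λ), Spl f f1 f2 ∧ IV f1 ∧ IV f2 ∧ cap a b f1 = some g1 ∧ cap a b f2 = some g2 := by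
  have none : ∀ k : Λ → Λ, k a = a → k b = b → cap a b k = some k := by
    intro k ka kb
    simp [cap, ka, kb]
  unfold cap at e
  split_ifs at e with c1 c2 c3 c4
  · rw [Option.some.injEq] at e
    subst e
    obtain ⟨a1, a2⟩ := hs.emp c1
    obtain ⟨b1, b2⟩ := hs.emp c2
    exact ⟨g1, g2, hs, h1, h2, none g1 a1 b1, none g2 a2 b2⟩
  · rw [Option.some.injEq] at e
    subst e
    have hpq : f a ≠ f b := fun e => hab (hf.inj e)
    have hjb : f b ≠ a := fun e => c4 (by rw [← e, hf])
    have gb : ct a b f a = a := by simp [ct]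
    have gj : ct a b f b = b := by simp [ct, hab.symm]
    have gp : ct a b f (f a) = f b := by simp [ct, c1, c4]
    obtain ⟨b1, b2⟩ := hs.emp gb
    obtain ⟨j1, j2⟩ := hs.emp gj
    have key : ∀ k1 k2 : Λ → Λ, Spl (ct a b f) k1 k2 → IV k1 → IV k2 → k1 a = a → k2 a = a →
        k1 b = b → k2 b = b → k2 (f a) = f a →
        Spl f (cut a (f a) b (f b) k1) k2 ∧ IV (cut a (f a) b (f b) k1) ∧
          cap a b (cut a (f a) b (f b) k1) = some k1 ∧ cap a b k2 = some k2 := by
      intro k1 k2 hk i1 i2 kb1 kb2 kj1 kj2 h0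
      obtain ⟨a1, a2, a3⟩ := hk.arc i1 gp h0 hpq
      refine ⟨?_, cut_IV i1 kb1 kj1 a1 hpq hab, ?_, none k2 kb2 kj2⟩
      · intro z
        by_cases c1 : z = a
        · subst c1; left; simp [cut, kb2]
        by_cases c2 : z = f a
        · subst c2; left; simp [cut, c1, hf a, h0]
        by_cases c3 : z = b
        · subst c3; left; simp [cut, c1, c2, kj2]
        by_cases c4 : z = f b
        · subst c4; left; simp [cut, c1, c2, c3, hf b, a3]
        have := hk z
        simpa [cut, ct, c1, c2, c3, c4] using this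
      · have d1 : cut a (f a) b (f b) k1 a = f a := by simp [cut]
        have d2 : cut a (f a) b (f b) k1 b = f b := by simp [cut, hab.symm, Ne.symm c4]
        unfold cap
        rw [d1, d2, if_neg c1, if_neg c3, if_neg c4, ct_cut i1 kb1 kj1 a1 hpq hab]
    rcases hs (f a) with ⟨_, h0⟩ | ⟨_, h0⟩
    · obtain ⟨k1, k2, k3, k4⟩ := key g1 g2 hs h1 h2 b1 b2 j1 j2 h0
      exact ⟨_, g2, k1, k2, h2, k3, k4⟩
    · obtain ⟨k1, k2, k3, k4⟩ := key g2 g1 hs.symm h2 h1 b2 b1 j2 j1 h0
      exact ⟨g1, _, k1.symm, h1, k2, k4, k3⟩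

end

end Pool.Agent.BEX
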