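import Pool.Agent.BEX.D.Split
import Pool.Agent.QL.Defs

/-!
# BEX, part D: a run whose result is a disjoint union splits into two runs; product bound for the masses
-/

namespace Pool.Agent.BEX

open Pool.Agent.HHP
open scoped ENNReal

section

variable {L : ℕ}

/-- Splitting a list of crossings. -/
theorem hops_split (js : List (Fin L)) (hn : js.Nodup) (r : Fin L → Bool) :
    ∀ {f g g1 g2 : Fin L ⊕ Bool → Fin L ⊕ Bool} {c : ℕ}, IV f →
    hops (Sum.inr true) (js.map (fun j => (r j, Sum.inl j))) f = some (g, c) → Spl g g1 g2 → IV g1 → IV g2 →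
    ∃ (r1 r2 : Fin L → Bool) (f1 f2 : Fin L ⊕ Bool → Fin L ⊕ Bool) (c1 c2 : ℕ), Spl f f1 f2 ∧ IV f1 ∧ IV f2 ∧
      hops (Sum.inr true) (js.map (fun j => (r1 j, Sum.inl j))) f1 = some (g1, c1) ∧
      hops (Sum.inr true) (js.map (fun j => (r2 j, Sum.inl j))) f2 = some (g2, c2) ∧
      (∀ j ∈ js, r j = (r1 j || r2 j)) ∧ c = c1 + c2 := by
  induction js with
  | nil =>
    intro f g g1 g2 c hf e hs h1 h2
    simp only [List.map_nil, hops, Option.some.injEq, Prod.mk.injEq] at e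
    obtain ⟨rfl, rfl⟩ := e
    exact ⟨r, r, g1, g2, 0, 0, hs, h1, h2, rfl, rfl, by simp, rfl⟩
  | cons j js ih =>
    intro f g g1 g2 c hf e hs h1 h2
    rw [List.nodup_cons] at hn
    simp only [List.map_cons, hops, Option.bind_eq_some_iff, Option.map_eq_some_iff] at e
    obtain ⟨⟨k, ck⟩, e1, ⟨g', cg⟩, e2, e3⟩ := e
    simp only [Prod.mk.injEq] at e3
    obtain ⟨rfl, rfl⟩ := e3
    obtain ⟨r1, r2, k1, k2, c1, c2, s1, i1, i2, x1, x2, hr, hc⟩ :=
      ih hn.2 (hop_IV hf e1) e2 hs h1 h2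
    obtain ⟨q1, q2, f1, f2, d1, d2, t1, u1, u2, y1, y2, hq, hd⟩ :=
      hop_split (by simp) hf e1 s1 i1 i2
    have hne : ∀ i ∈ js, i ≠ j := fun i hi e => hn.1 (e ▸ hi)
    have hm : ∀ (s : Fin L → Bool) (q : Bool), js.map (fun i => (Function.update s j q i,
        (Sum.inl i : Fin L ⊕ Bool))) = js.map (fun i => (s i, Sum.inl i)) := by
      intro s q
      apply List.map_congr_left
      intro i hi
      rw [Function.update_of_ne (hne i hi)]
    refine ⟨Function.update r1 j q1, Function.update r2 j q2, f1, f2, d1 + c1, d2 + c2, t1, u1, u2,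
      ?_, ?_, ?_, ?_⟩
    · simp only [List.map_cons, hops, Function.update_self, y1, Option.bind_some, hm, x1, Option.map_some]
    · simp only [List.map_cons, hops, Function.update_self, y2, Option.bind_some, hm, x2, Option.map_some]
    · intro i hi
      rcases List.mem_cons.1 hi with rfl | hi
      · simp [hq]
      · rw [Function.update_of_ne (hne i hi), Function.update_of_ne (hne i hi)]
        exact hr i hi
    · omega

/-- Splitting the cup. -/
theorem cup_split {q : Bool} {f : Fin L → Fin L} {g1 g2 : Fin L ⊕ Bool → Fin L ⊕ Bool}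
    (hs : Spl (cup q f) g1 g2) (h1 : IV g1) (h2 : IV g2) :
    ∃ (q1 q2 : Bool) (f1 f2 : Fin L → Fin L), Spl f f1 f2 ∧ IV f1 ∧ IV f2 ∧ g1 = cup q1 f1 ∧ g2 = cup q2 f2 ∧
      q = (q1 || q2) := by
  have base : ∀ {k1 k2 : Fin L ⊕ Bool → Fin L ⊕ Bool}, Spl (Sum.map f id) k1 k2 → IV k1 → IV k2 →
      Spl f (rst k1) (rst k2) ∧ IV (rst k1) ∧ IV (rst k2) ∧ k1 = Sum.map (rst k1) id ∧
        k2 = Sum.map (rst k2) id := by
    intro k1 k2 hk i1 i2
    obtain ⟨a1, a2⟩ := hk.emp (z := Sum.inr false) rfl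
    obtain ⟨b1, b2⟩ := hk.emp (z := Sum.inr true) rfl
    have e1 := eq_map_rst i1 a1 b1
    have e2 := eq_map_rst i2 a2 b2
    refine ⟨?_, rst_IV i1 a1 b1, rst_IV i2 a2 b2, e1, e2⟩
    intro j
    have := hk (Sum.inl j)
    rw [e1, e2] at this
    simpa using this
  cases q
  · have hs' : Spl (Sum.map f id) g1 g2 := by simpa [cup] using hs
    obtain ⟨s, i1, i2, e1, e2⟩ := base hs' h1 h2
    exact ⟨false, false, rst g1, rst g2, s, i1, i2, by simpa [cup] using e1, by simpa [cup] using e2, rfl⟩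
  · have hc : cup true f = ar (Sum.inr false) (Sum.inr true) (Sum.map f id) := by simp [cup]
    rw [hc] at hs
    have hab : (Sum.inr false : Fin L ⊕ Bool) ≠ Sum.inr true := by simp
    have hgb : ar (Sum.inr false) (Sum.inr true) (Sum.map f id) (Sum.inr false) = (Sum.inr true : Fin L ⊕ Bool) := by
      simp [ar]
    have key : ∀ k1 k2 : Fin L ⊕ Bool → Fin L ⊕ Bool, Spl (ar (Sum.inr false) (Sum.inr true) (Sum.map f id)) k1 k2 →
        IV k1 → IV k2 → k2 (Sum.inr false) = Sum.inr false →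
        ∃ f1 f2 : Fin L → Fin L, Spl f f1 f2 ∧ IV f1 ∧ IV f2 ∧ k1 = cup true f1 ∧ k2 = cup false f2 := by
      intro k1 k2 hk i1 i2 h0
      obtain ⟨a1, a2, a3⟩ := hk.arc i1 hgb h0 hab
      have hs' : Spl (Sum.map f id) (rmv (Sum.inr false) (Sum.inr true) k1) k2 := by
        intro z
        by_cases c1 : z = Sum.inr false
        · subst c1; left; simp [rmv, h0]
        by_cases c2 : z = Sum.inr true
        · subst c2; left; simp [rmv, a3]
        have := hk z
        simpa [rmv, ar, c1, c2] using this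
      obtain ⟨s, j1, j2, e1, e2⟩ := base hs' (rmv_IV i1 a1) i2
      refine ⟨_, _, s, j1, j2, ?_, ?_⟩
      · simp only [cup, if_true]
        rw [← e1, ar_rmv i1 a1]
      · simpa [cup] using e2
    rcases hs (Sum.inr false) with ⟨_, h0⟩ | ⟨_, h0⟩
    · obtain ⟨f1, f2, s, i1, i2, e1, e2⟩ := key g1 g2 hs h1 h2 h0
      exact ⟨true, false, f1, f2, s, i1, i2, e1, e2, rfl⟩
    · obtain ⟨f1, f2, s, i1, i2, e1, e2⟩ := key g2 g1 hs.symm h2 h1 h0
      exact ⟨false, true, f2, f1, s.symm, i2, i1, e2, e1, rfl⟩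

/-- Splitting a row. -/
theorem row_split {q : Bool} {r : Fin L → Bool} {f g g1 g2 : Fin L → Fin L} {c : ℕ} (hf : IV f)
    (e : row q r f = some (g, c)) (hs : Spl g g1 g2) (h1 : IV g1) (h2 : IV g2) :
    ∃ (q1 q2 : Bool) (r1 r2 : Fin L → Bool) (f1 f2 : Fin L → Fin L) (c1 c2 : ℕ), Spl f f1 f2 ∧ IV f1 ∧ IV f2 ∧
      row q1 r1 f1 = some (g1, c1) ∧ row q2 r2 f2 = some (g2, c2) ∧ q = (q1 || q2) ∧
      r = (fun j => r1 j || r2 j) ∧ c = c1 + c2 := by
  rw [row_def] at e
  simp only [Option.bind_eq_some_iff, Option.map_eq_some_iff] at e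
  obtain ⟨⟨k, ck⟩, e1, h, e2, e3⟩ := e
  simp only [Prod.mk.injEq] at e3
  obtain ⟨rfl, rfl⟩ := e3
  obtain ⟨h0, h0'⟩ := cap_fix e2
  have ik : IV k := hops_IV _ (cup_IV hf) e1
  have ih := cap_IV ik e2
  have eh := eq_map_rst ih h0 h0'
  have hs' : Spl h (Sum.map g1 id) (Sum.map g2 id) := by
    rw [eh]
    rintro (j | b)
    · have := hs j
      simpa using this
    · simp
  obtain ⟨k1, k2, s1, i1, i2, x1, x2⟩ := cap_split (by simp) ik e2 hs' (map_IV h1) (map_IV h2)
  obtain ⟨r1, r2, m1, m2, c1, c2, s2, j1, j2, y1, y2, hr, hc⟩ :=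
    hops_split _ (List.nodup_finRange L) r (cup_IV hf) e1 s1 i1 i2
  obtain ⟨q1, q2, f1, f2, s3, l1, l2, z1, z2, hq⟩ := cup_split s2 j1 j2
  subst z1 z2
  refine ⟨q1, q2, r1, r2, f1, f2, c1, c2, s3, l1, l2, ?_, ?_, hq, ?_, hc⟩
  · rw [row_def, y1]
    simp only [Option.bind_some, x1, Option.map_some, rst_map]
  · rw [row_def, y2]
    simp only [Option.bind_some, x2, Option.map_some, rst_map]
  · funext j
    exact hr j (List.mem_finRange j)

/-- Edgewise union of two histories. -/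
def orH (H1 H2 : List (QL.Ch L)) : List (QL.Ch L) :=
  List.zipWith (fun p1 p2 => (p1.1 || p2.1, fun j => p1.2 j || p2.2 j)) H1 H2

theorem rowG_id (c : QL.Ch L) (f : Fin L → Fin L) : QL.rowG id c f = row c.1 c.2 f := by
  unfold QL.rowG row
  simp only [id]
  congr 1
  funext g
  congr 1
  funext h
  congr 1
  funext a
  cases h (Sum.inl a) <;> rfl

theorem run_IV (H : List (QL.Ch L)) : ∀ {f : Fin L → Fin L}, IV f → ∀ {g : (Fin L → Fin L) × ℕ},
    QL.run id H f = some g → IV g.1 := by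
  induction H with
  | nil => intro f h g e; simp only [QL.run, Option.some.injEq] at e; subst e; exact h
  | cons p l ih =>
    intro f h g e
    simp only [QL.run, Option.bind_eq_some_iff, Option.map_eq_some_iff] at e
    obtain ⟨g1, e1, g2, e2, e3⟩ := e
    subst e3
    rw [rowG_id] at e1
    exact ih (g := g2) (row_IV h e1) e2

/-- Splitting a run. -/
theorem run_split (H : List (QL.Ch L)) : ∀ {f g g1 g2 : Fin L → Fin L} {c : ℕ}, IV f →
    QL.run id H f = some (g, c) → Spl g g1 g2 → IV g1 → IV g2 →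
    ∃ (H1 H2 : List (QL.Ch L)) (f1 f2 : Fin L → Fin L) (c1 c2 : ℕ), Spl f f1 f2 ∧ IV f1 ∧ IV f2 ∧
      QL.run id H1 f1 = some (g1, c1) ∧ QL.run id H2 f2 = some (g2, c2) ∧
      H1.length = H.length ∧ H2.length = H.length ∧ H = orH H1 H2 ∧ c = c1 + c2 := by
  induction H with
  | nil =>
    intro f g g1 g2 c hf e hs h1 h2
    simp only [QL.run, Option.some.injEq, Prod.mk.injEq] at e
    obtain ⟨rfl, rfl⟩ := e
    exact ⟨[], [], g1, g2, 0, 0, hs, h1, h2, rfl, rfl, rfl, rfl, rfl, rfl⟩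
  | cons p H ih =>
    intro f g g1 g2 c hf e hs h1 h2
    simp only [QL.run, Option.bind_eq_some_iff, Option.map_eq_some_iff] at e
    obtain ⟨⟨k, ck⟩, e1, ⟨g', cg⟩, e2, e3⟩ := e
    simp only [Prod.mk.injEq] at e3
    obtain ⟨rfl, rfl⟩ := e3
    rw [rowG_id] at e1
    obtain ⟨H1, H2, k1, k2, c1, c2, s1, i1, i2, x1, x2, l1, l2, hH, hc⟩ :=
      ih (row_IV hf e1) e2 hs h1 h2
    obtain ⟨q1, q2, r1, r2, f1, f2, d1, d2, s2, j1, j2, y1, y2, hq, hr, hd⟩ := row_split hf e1 s1 i1 i2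
    refine ⟨(q1, r1) :: H1, (q2, r2) :: H2, f1, f2, d1 + c1, d2 + c2, s2, j1, j2, ?_, ?_, ?_, ?_, ?_, ?_⟩
    · simp only [QL.run, rowG_id, y1, Option.bind_some, x1, Option.map_some]
    · simp only [QL.run, rowG_id, y2, Option.bind_some, x2, Option.map_some]
    · simp [l1]
    · simp [l2]
    · simp only [orH, List.zipWith_cons_cons]
      rw [← hq, ← hr]
      unfold orH at hH
      rw [← hH]
    · omega

theorem Spl_id {f1 f2 : Fin L → Fin L} (h : Spl id f1 f2) : f1 = id ∧ f2 = id := by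
  constructor
  · funext z; exact (h.emp (z := z) rfl).1
  · funext z; exact (h.emp (z := z) rfl).2

/-- PRODUCT BOUND for the masses of the runs from the empty state. -/
theorem rm_split (M : ℕ) {g g1 g2 : Fin L → Fin L} (hs : Spl g g1 g2) (h1 : IV g1) (h2 : IV g2) :
    QL.rm (id : Fin L → Fin L) M id g ≤ QL.rm (id : Fin L → Fin L) M id g1 * QL.rm (id : Fin L → Fin L) M id g2 := by
  classical
  unfold QL.rm
  set T := {cs : List (QL.Ch L) // cs.length = M}
  set F : T → ℝ≥0∞ := fun cs => QL.wr g (QL.run id cs.1 id)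
  set F1 : T → ℝ≥0∞ := fun cs => QL.wr g1 (QL.run id cs.1 id)
  set F2 : T → ℝ≥0∞ := fun cs => QL.wr g2 (QL.run id cs.1 id)
  have key : ∀ cs : T, F cs ≠ 0 → ∃ p : T × T, F cs = F1 p.1 * F2 p.2 ∧ cs.1 = orH p.1.1 p.2.1 := by
    rintro ⟨H, hH⟩ hF
    simp only [F] at hF
    cases e : QL.run id H id with
    | none => rw [e] at hF; exact absurd rfl hF
    | some x =>
      obtain ⟨k, c⟩ := x
      rw [e] at hF
      have hk : k = g := by
        by_contra hk
        apply hF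
        simp [QL.wr, hk]
      subst hk
      obtain ⟨H1, H2, f1, f2, c1, c2, s, i1, i2, x1, x2, l1, l2, hH', hc⟩ :=
        run_split H (fun _ => rfl) e hs h1 h2
      obtain ⟨rfl, rfl⟩ := Spl_id s
      refine ⟨(⟨H1, l1.trans hH⟩, ⟨H2, l2.trans hH⟩), ?_, hH'⟩
      simp only [F, F1, F2, e, x1, x2, QL.wr, if_true, hc, pow_add]
  choose! φ hφ1 hφ2 using key
  have hinj : Function.Injective (fun cs : Function.support F => φ cs.1) := by
    intro a b hab
    have h3 := hφ2 a.1 a.2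
    have h4 := hφ2 b.1 b.2
    simp only at hab
    rw [hab] at h3
    exact Subtype.ext (Subtype.ext (h3.trans h4.symm))
  calc ∑' cs : T, F cs = ∑' cs : Function.support F, F cs.1 := (tsum_subtype_support F).symm
    _ = ∑' cs : Function.support F, (fun p : T × T => F1 p.1 * F2 p.2) (φ cs.1) := by
        apply tsum_congr
        intro cs
        exact hφ1 cs.1 cs.2
    _ ≤ ∑' p : T × T, F1 p.1 * F2 p.2 := ENNReal.tsum_comp_le_tsum_of_injective hinj _
    _ = (∑' cs : T, F1 cs) * ∑' cs : T, F2 cs := by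
        rw [ENNReal.tsum_prod (f := fun a b => F1 a * F2 b)]
        simp_rw [ENNReal.tsum_mul_left, ENNReal.tsum_mul_right]

end

end Pool.Agent.BEX
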